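import Pool.Agent.FSG.Final

/-!
# Exchange property and size of maximal faces under flag contractions
-/

set_option autoImplicit false

namespace Pool.Agent.FSG

open Finset

variable {n : ℕ}

theorem pair_mem_of_insert {Δ : Cx n} (h1 : IsCx Δ) {K : Finset (Fin n)} {a x : Fin n}
    (h : insert a K ∈ Δ) (hx : x ∈ K) : ({x, a} : Finset (Fin n)) ∈ Δ := by
  refine h1.2 _ h _ ?_
  intro c hc
  rw [Finset.mem_insert, Finset.mem_singleton] at hc
  rcases hc with rfl | rfl
  · exact Finset.mem_insert_of_mem hx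
  · exact Finset.mem_insert_self _ _

theorem pair_mem {Δ : Cx n} (h1 : IsCx Δ) {K : Finset (Fin n)} {a b : Fin n}
    (h : K ∈ Δ) (ha : a ∈ K) (hb : b ∈ K) : ({a, b} : Finset (Fin n)) ∈ Δ := by
  refine h1.2 _ h _ ?_
  intro c hc
  rw [Finset.mem_insert, Finset.mem_singleton] at hc
  rcases hc with rfl | rfl <;> assumption

theorem insert_mem_of_adj {Δ : Cx n} (h1 : IsCx Δ) (h2 : IsFlag Δ) {K : Finset (Fin n)} {a : Fin n}
    (hK : K ∈ Δ) (ha : ({a} : Finset (Fin n)) ∈ Δ)
    (h : ∀ x ∈ K, ({x, a} : Finset (Fin n)) ∈ Δ) : insert a K ∈ Δ := by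
  apply h2
  intro c hc e he
  rw [Finset.mem_insert] at hc he
  rcases hc with rfl | hc
  · rcases he with rfl | he
    · simpa using ha
    · rw [Finset.pair_comm]; exact h _ he
  · rcases he with rfl | he
    · exact h _ hc
    · exact pair_mem h1 hK hc he

/-- faces of the contraction that avoid the edge -/
theorem contract_mem_of_not {Δ : Cx n} {u v : Fin n} {K : Finset (Fin n)}
    (hu : u ∉ K) (hv : v ∉ K) : K ∈ contract u v Δ ↔ K ∈ Δ := by
  rw [mem_contract]
  constructor
  · rintro ⟨F, hF, h⟩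
    split_ifs at h with hv'
    · exact absurd (by rw [← h]; simp) hu
    · rwa [← h]
  · intro h
    exact ⟨K, h, by simp [hv]⟩

/-- faces of the contraction that contain `u` -/
theorem contract_mem_insert {Δ : Cx n} (h1 : IsCx Δ) {u v : Fin n} {K : Finset (Fin n)}
    (huv : u ≠ v) (hu : u ∉ K) (hv : v ∉ K) :
    insert u K ∈ contract u v Δ ↔ insert u K ∈ Δ ∨ insert v K ∈ Δ := by
  rw [mem_contract]
  constructor
  · rintro ⟨F, hF, h⟩
    split_ifs at h with hv'
    · right
      refine h1.2 F hF _ ?_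
      intro a ha
      rw [Finset.mem_insert] at ha
      rcases ha with rfl | ha
      · exact hv'
      · have : a ∈ insert u (F.erase v) := by rw [h]; exact Finset.mem_insert_of_mem ha
        rw [Finset.mem_insert, Finset.mem_erase] at this
        rcases this with h' | h'
        · exact absurd (h' ▸ ha) hu
        · exact h'.2
    · left; rwa [← h]
  · rintro (h | h)
    · refine ⟨_, h, ?_⟩
      rw [if_neg (by simp [huv.symm, hv])]
    · refine ⟨_, h, ?_⟩
      rw [if_pos (by simp), Finset.erase_insert hv]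

theorem notMem_of_contract {Δ : Cx n} {u v : Fin n} {K : Finset (Fin n)} (huv : u ≠ v)
    (h : K ∈ contract u v Δ) : v ∉ K := by
  rw [mem_contract] at h
  obtain ⟨F, hF, h⟩ := h
  split_ifs at h with hv
  · rw [← h, Finset.mem_insert, Finset.mem_erase]
    rintro (h' | h')
    · exact huv h'.symm
    · exact h'.1 rfl
  · rw [← h]; exact hv

/-- `a, b` are the two ends of the edge, in one of the two orders -/
def Ends (u v a b : Fin n) : Prop := (a = u ∧ b = v) ∨ (a = v ∧ b = u)

theorem no4 {Δ : Cx n} (h1 : IsCx Δ) {u v : Fin n} (huv : u ≠ v)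
    (hf : IsFlag (contract u v Δ)) {a b : Fin n} (hab : Ends u v a b) {x y : Fin n}
    (hx : x ≠ u ∧ x ≠ v) (hy : y ≠ u ∧ y ≠ v)
    (hxa : ({x, a} : Finset (Fin n)) ∈ Δ) (hyb : ({y, b} : Finset (Fin n)) ∈ Δ)
    (hxy : ({x, y} : Finset (Fin n)) ∈ Δ) :
    ({y, a} : Finset (Fin n)) ∈ Δ ∨ ({x, b} : Finset (Fin n)) ∈ Δ := by
  have hu : u ∉ ({x, y} : Finset (Fin n)) := by
    simp [hx.1.symm, hy.1.symm]
  have hv : v ∉ ({x, y} : Finset (Fin n)) := by
    simp [hx.2.symm, hy.2.symm]
  have hc : insert u ({x, y} : Finset (Fin n)) ∈ contract u v Δ := by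
    have hsx : ({x, u} : Finset (Fin n)) ∈ contract u v Δ := by
      rw [Finset.pair_comm, contract_mem_insert h1 huv (by simpa using hx.1.symm)
        (by simpa using hx.2.symm)]
      rcases hab with ⟨rfl, rfl⟩ | ⟨rfl, rfl⟩
      · left; rw [Finset.pair_comm]; exact hxa
      · right; rw [Finset.pair_comm]; exact hxa
    have hsy : ({y, u} : Finset (Fin n)) ∈ contract u v Δ := by
      rw [Finset.pair_comm, contract_mem_insert h1 huv (by simpa using hy.1.symm)
        (by simpa using hy.2.symm)]
      rcases hab with ⟨rfl, rfl⟩ | ⟨rfl, rfl⟩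
      · right; rw [Finset.pair_comm]; exact hyb
      · left; rw [Finset.pair_comm]; exact hyb
    have hsxy : ({x, y} : Finset (Fin n)) ∈ contract u v Δ := by
      rw [contract_mem_of_not hu hv]; exact hxy
    have hxx : ({x} : Finset (Fin n)) ∈ contract u v Δ := by
      rw [contract_mem_of_not (by simpa using hx.1.symm) (by simpa using hx.2.symm)]
      exact h1.2 _ hxy _ (by simp)
    have hyy : ({y} : Finset (Fin n)) ∈ contract u v Δ := by
      rw [contract_mem_of_not (by simpa using hy.1.symm) (by simpa using hy.2.symm)]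
      exact h1.2 _ hxy _ (by simp)
    have huu : ({u} : Finset (Fin n)) ∈ contract u v Δ := by
      have := (contract_mem_insert (Δ := Δ) h1 huv (K := ∅) (by simp) (by simp)).2
      have hu' : ({u} : Finset (Fin n)) ∈ Δ ∨ ({v} : Finset (Fin n)) ∈ Δ := by
        rcases hab with ⟨rfl, rfl⟩ | ⟨rfl, rfl⟩
        · left; exact h1.2 _ hxa _ (by simp)
        · right; exact h1.2 _ hxa _ (by simp)
      simpa using this (by simpa using hu')
    apply hf
    intro c hc e he
    simp only [Finset.mem_insert, Finset.mem_singleton] at hc he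
    rcases hc with rfl | rfl | rfl <;> rcases he with rfl | rfl | rfl
    · simpa using huu
    · rw [Finset.pair_comm]; exact hsx
    · rw [Finset.pair_comm]; exact hsy
    · exact hsx
    · simpa using hxx
    · exact hsxy
    · exact hsy
    · rw [Finset.pair_comm]; exact hsxy
    · simpa using hyy
  rw [contract_mem_insert h1 huv hu hv] at hc
  rcases hab with ⟨rfl, rfl⟩ | ⟨rfl, rfl⟩
  · rcases hc with h | h
    · left; exact pair_mem h1 h (by simp) (by simp)
    · right; exact pair_mem h1 h (by simp) (by simp)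
  · rcases hc with h | h
    · right; exact pair_mem h1 h (by simp) (by simp)
    · left; exact pair_mem h1 h (by simp) (by simp)

theorem insert_mem_contract {Δ : Cx n} (h1 : IsCx Δ) {u v : Fin n} {K : Finset (Fin n)}
    (huv : u ≠ v) (hu : u ∉ K) (hv : v ∉ K) {a b : Fin n} (hab : Ends u v a b)
    (h : insert a K ∈ Δ) : insert u K ∈ contract u v Δ := by
  rw [contract_mem_insert h1 huv hu hv]
  rcases hab with ⟨rfl, rfl⟩ | ⟨rfl, rfl⟩
  · left; exact h
  · right; exact h

theorem exists_ends {Δ : Cx n} (h1 : IsCx Δ) {u v : Fin n} {K : Finset (Fin n)}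
    (huv : u ≠ v) (hu : u ∉ K) (hv : v ∉ K) (h : insert u K ∈ contract u v Δ) :
    ∃ a b, Ends u v a b ∧ insert a K ∈ Δ := by
  rw [contract_mem_insert h1 huv hu hv] at h
  rcases h with h | h
  · exact ⟨u, v, Or.inl ⟨rfl, rfl⟩, h⟩
  · exact ⟨v, u, Or.inr ⟨rfl, rfl⟩, h⟩

/-- the exchange property passes to flag contractions -/
theorem exch_contract {Δ : Cx n} (h1 : IsCx Δ) (h2 : IsFlag Δ) (h3 : Exch Δ) {u v : Fin n}
    (huv : u ≠ v) (he : ({u, v} : Finset (Fin n)) ∈ Δ) (hf : IsFlag (contract u v Δ)) :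
    Exch (contract u v Δ) := by
  have hsu : ({u} : Finset (Fin n)) ∈ Δ := h1.2 _ he _ (by simp)
  have hsv : ({v} : Finset (Fin n)) ∈ Δ := h1.2 _ he _ (by simp)
  -- facts about the ends
  have hab' : ∀ {a b : Fin n}, Ends u v a b → ({a, b} : Finset (Fin n)) ∈ Δ ∧
      ({a} : Finset (Fin n)) ∈ Δ ∧ ({b} : Finset (Fin n)) ∈ Δ ∧ a ≠ b ∧
      (∀ z : Fin n, z ≠ a → z ≠ b → z ≠ u ∧ z ≠ v) ∧ (∀ z : Fin n, z ≠ u → z ≠ v → z ≠ a ∧ z ≠ b) := by
    intro a b h
    rcases h with ⟨rfl, rfl⟩ | ⟨rfl, rfl⟩
    · exact ⟨he, hsu, hsv, huv, fun z a b => ⟨a, b⟩, fun z a b => ⟨a, b⟩⟩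
    · exact ⟨by rw [Finset.pair_comm]; exact he, hsv, hsu, huv.symm, fun z a b => ⟨b, a⟩,
        fun z a b => ⟨b, a⟩⟩
  -- non-adjacency in the contraction away from the edge
  have hnadj : ∀ {x y : Fin n}, (x ≠ u ∧ x ≠ v) → (y ≠ u ∧ y ≠ v) →
      ({x, y} : Finset (Fin n)) ∉ Δ → ({x, y} : Finset (Fin n)) ∉ contract u v Δ := by
    intro x y hx hy h
    rw [contract_mem_of_not (by simp [hx.1.symm, hy.1.symm]) (by simp [hx.2.symm, hy.2.symm])]
    exact h
  have hnadj' : ∀ {y a b : Fin n}, Ends u v a b → (y ≠ u ∧ y ≠ v) →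
      ({y, a} : Finset (Fin n)) ∉ Δ → ({y, b} : Finset (Fin n)) ∉ Δ →
      ({u, y} : Finset (Fin n)) ∉ contract u v Δ := by
    intro y a b hab hy ha hb
    rw [contract_mem_insert h1 huv (by simpa using hy.1.symm) (by simpa using hy.2.symm)]
    rcases hab with ⟨rfl, rfl⟩ | ⟨rfl, rfl⟩
    · rintro (h | h)
      · exact ha (by rw [Finset.pair_comm]; exact h)
      · exact hb (by rw [Finset.pair_comm]; exact h)
    · rintro (h | h)
      · exact hb (by rw [Finset.pair_comm]; exact h)
      · exact ha (by rw [Finset.pair_comm]; exact h)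
  intro G hG x hx
  have hvG := notMem_of_contract huv hG
  have hxv : x ≠ v := fun h => hvG (h ▸ hx)
  by_cases huG : u ∈ G
  · -- u ∈ G
    by_cases hxu : x = u
    · -- Case C
      have hH : insert u (G.erase u) ∈ contract u v Δ := by rw [Finset.insert_erase huG]; exact hG
      have huH : u ∉ G.erase u := by simp
      have hvH : v ∉ G.erase u := fun h => hvG (Finset.mem_of_mem_erase h)
      obtain ⟨a, b, hab, ha⟩ := exists_ends h1 huv huH hvH hH
      obtain ⟨eab, ea, eb, hne, hz1, hz2⟩ := hab' hab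
      have haH : a ∉ G.erase u := by
        rcases hab with ⟨rfl, rfl⟩ | ⟨rfl, rfl⟩ <;> assumption
      have hbH : b ∉ G.erase u := by
        rcases hab with ⟨rfl, rfl⟩ | ⟨rfl, rfl⟩ <;> assumption
      obtain ⟨y, hy1, hy2⟩ := h3 _ ha a (Finset.mem_insert_self _ _)
      rw [Finset.erase_insert haH] at hy2
      have hya : y ≠ a := by rintro rfl; exact hy1 (by simpa using ea)
      have hyb : y ≠ b := by rintro rfl; exact hy1 eab
      have hyuv := hz1 y hya hyb
      have hy1' : ({y, a} : Finset (Fin n)) ∉ Δ := by rw [Finset.pair_comm]; exact hy1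
      subst hxu
      by_cases hyb' : ({y, b} : Finset (Fin n)) ∈ Δ
      · -- every h is adjacent to b
        have hHmem : G.erase x ∈ Δ := h1.2 _ ha _ (Finset.subset_insert _ _)
        have hH1 : insert y (G.erase x) ∈ Δ := hy2
        have hyH : y ∉ G.erase x := by
          intro h
          exact hy1' (pair_mem h1 ha (Finset.mem_insert_of_mem h) (Finset.mem_insert_self _ _))
        have hbadj : ∀ h ∈ insert y (G.erase x), ({h, b} : Finset (Fin n)) ∈ Δ := by
          intro h hh
          rw [Finset.mem_insert] at hh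
          rcases hh with rfl | hh
          · exact hyb'
          · have hhu : h ≠ x ∧ h ≠ v := ⟨fun e => huH (e ▸ hh), fun e => hvH (e ▸ hh)⟩
            rcases no4 h1 huv hf hab hhu hyuv (pair_mem_of_insert h1 ha hh) hyb'
              (pair_mem h1 hH1 (Finset.mem_insert_of_mem hh) (Finset.mem_insert_self _ _)) with h' | h'
            · exact absurd h' hy1'
            · exact h'
        have hH2 : insert b (insert y (G.erase x)) ∈ Δ := insert_mem_of_adj h1 h2 hH1 eb hbadj
        obtain ⟨z, hz3, hz4⟩ := h3 _ hH2 b (Finset.mem_insert_self _ _)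
        rw [Finset.erase_insert (by simp only [Finset.mem_insert, not_or]; exact ⟨hyb.symm, hbH⟩)] at hz4
        have hzb : z ≠ b := by rintro rfl; exact hz3 (by simpa using eb)
        have hzy : ({z, y} : Finset (Fin n)) ∈ Δ :=
          pair_mem h1 hz4 (Finset.mem_insert_self _ _) (by simp)
        have hza : z ≠ a := by rintro rfl; exact hy1 hzy
        have hzuv := hz1 z hza hzb
        have hz3' : ({z, b} : Finset (Fin n)) ∉ Δ := by rw [Finset.pair_comm]; exact hz3
        have hza' : ({z, a} : Finset (Fin n)) ∉ Δ := by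
          intro h
          rcases no4 h1 huv hf hab hzuv hyuv h hyb' hzy with h' | h'
          · exact hy1' h'
          · exact hz3' h'
        refine ⟨z, hnadj' hab hzuv hza' hz3', ?_⟩
        rw [contract_mem_of_not
          (by simp only [Finset.mem_insert, not_or]; exact ⟨hzuv.1.symm, huH⟩)
          (by simp only [Finset.mem_insert, not_or]; exact ⟨hzuv.2.symm, hvH⟩)]
        exact h1.2 _ hz4 _ (Finset.insert_subset_insert _ (Finset.subset_insert _ _))
      · refine ⟨y, hnadj' hab hyuv hy1' hyb', ?_⟩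
        rw [contract_mem_of_not
          (by simp only [Finset.mem_insert, not_or]; exact ⟨hyuv.1.symm, huH⟩)
          (by simp only [Finset.mem_insert, not_or]; exact ⟨hyuv.2.symm, hvH⟩)]
        exact hy2
    · -- Case B
      have hxuv : x ≠ u ∧ x ≠ v := ⟨hxu, hxv⟩
      have hxH : x ∈ G.erase u := Finset.mem_erase.2 ⟨hxu, hx⟩
      have hH : insert u (G.erase u) ∈ contract u v Δ := by rw [Finset.insert_erase huG]; exact hG
      have huH : u ∉ G.erase u := by simp
      have hvH : v ∉ G.erase u := fun h => hvG (Finset.mem_of_mem_erase h)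
      obtain ⟨a, b, hab, ha⟩ := exists_ends h1 huv huH hvH hH
      obtain ⟨eab, ea, eb, hne, hz1, hz2⟩ := hab' hab
      have haH : a ∉ G.erase u := by
        rcases hab with ⟨rfl, rfl⟩ | ⟨rfl, rfl⟩ <;> assumption
      have hbH : b ∉ G.erase u := by
        rcases hab with ⟨rfl, rfl⟩ | ⟨rfl, rfl⟩ <;> assumption
      have hxa : ({x, a} : Finset (Fin n)) ∈ Δ := pair_mem_of_insert h1 ha hxH
      have hxab := hz2 x hxu hxv
      obtain ⟨y, hy1, hy2⟩ := h3 _ ha x (Finset.mem_insert_of_mem hxH)
      have hya : y ≠ a := by rintro rfl; exact hy1 hxa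
      -- the faces without x
      have herase : (insert a (G.erase u)).erase x = insert a ((G.erase u).erase x) := by
        rw [Finset.erase_insert_of_ne hxab.1.symm]
      rw [herase, Finset.insert_comm] at hy2
      have huF : u ∉ (G.erase u).erase x := fun h => huH (Finset.mem_of_mem_erase h)
      have hvF : v ∉ (G.erase u).erase x := fun h => hvH (Finset.mem_of_mem_erase h)
      have haF : a ∉ (G.erase u).erase x := fun h => haH (Finset.mem_of_mem_erase h)
      have hgoal : ∀ z : Fin n, insert z (G.erase x) = insert u (insert z ((G.erase u).erase x)) := by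
        intro z
        rw [Finset.insert_comm, Finset.erase_right_comm, Finset.insert_erase]
        exact Finset.mem_erase.2 ⟨fun h => hxu h.symm, huG⟩
      by_cases hyb : y = b
      · -- y = b
        subst hyb
        have hxb : ({x, y} : Finset (Fin n)) ∉ Δ := hy1
        obtain ⟨z, hz3, hz4⟩ := h3 _ hy2 a (by simp)
        have her : (insert a (insert y ((G.erase u).erase x))).erase a =
            insert y ((G.erase u).erase x) := by
          rw [Finset.erase_insert]
          simp only [Finset.mem_insert, not_or]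
          exact ⟨hne, haF⟩
        rw [her] at hz4
        have hza : z ≠ a := by rintro rfl; exact hz3 (by simpa using ea)
        have hzb : z ≠ y := by rintro rfl; exact hz3 eab
        have hzuv := hz1 z hza hzb
        have hz3' : ({z, a} : Finset (Fin n)) ∉ Δ := by rw [Finset.pair_comm]; exact hz3
        have hzy : ({z, y} : Finset (Fin n)) ∈ Δ :=
          pair_mem h1 hz4 (Finset.mem_insert_self _ _) (by simp)
        have hxz : ({x, z} : Finset (Fin n)) ∉ Δ := by
          intro h
          rcases no4 h1 huv hf hab hxuv hzuv hxa hzy h with h' | h'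
          · exact hz3' h'
          · exact hxb h'
        refine ⟨z, hnadj hxuv hzuv hxz, ?_⟩
        rw [hgoal]
        have hab2 : Ends u v y a := by
          rcases hab with ⟨rfl, rfl⟩ | ⟨rfl, rfl⟩
          · exact Or.inr ⟨rfl, rfl⟩
          · exact Or.inl ⟨rfl, rfl⟩
        refine insert_mem_contract h1 huv
          (by simp only [Finset.mem_insert, not_or]; exact ⟨hzuv.1.symm, huF⟩)
          (by simp only [Finset.mem_insert, not_or]; exact ⟨hzuv.2.symm, hvF⟩) hab2 ?_
        rw [Finset.insert_comm]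
        exact hz4
      · have hyuv := hz1 y hya hyb
        refine ⟨y, hnadj hxuv hyuv hy1, ?_⟩
        rw [hgoal]
        refine insert_mem_contract h1 huv
          (by simp only [Finset.mem_insert, not_or]; exact ⟨hyuv.1.symm, huF⟩)
          (by simp only [Finset.mem_insert, not_or]; exact ⟨hyuv.2.symm, hvF⟩) hab ?_
        rw [Finset.insert_comm] at hy2
        rw [Finset.insert_comm]
        exact hy2
  · -- Case A
    have hxu : x ≠ u := fun h => huG (h ▸ hx)
    have hxuv : x ≠ u ∧ x ≠ v := ⟨hxu, hxv⟩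
    have hGΔ : G ∈ Δ := (contract_mem_of_not huG hvG).1 hG
    have huF : u ∉ G.erase x := fun h => huG (Finset.mem_of_mem_erase h)
    have hvF : v ∉ G.erase x := fun h => hvG (Finset.mem_of_mem_erase h)
    have hFΔ : G.erase x ∈ Δ := h1.2 _ hGΔ _ (Finset.erase_subset _ _)
    obtain ⟨y, hy1, hy2⟩ := h3 G hGΔ x hx
    by_cases hyuv : y ≠ u ∧ y ≠ v
    · refine ⟨y, hnadj hxuv hyuv hy1, ?_⟩
      rw [contract_mem_of_not
          (by simp only [Finset.mem_insert, not_or]; exact ⟨hyuv.1.symm, huF⟩)
          (by simp only [Finset.mem_insert, not_or]; exact ⟨hyuv.2.symm, hvF⟩)]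
      exact hy2
    · have hab : ∃ b, Ends u v y b := by
        by_cases hyu : y = u
        · exact ⟨v, Or.inl ⟨hyu, rfl⟩⟩
        · have : y = v := by
            by_contra h
            exact hyuv ⟨hyu, h⟩
          exact ⟨u, Or.inr ⟨this, rfl⟩⟩
      obtain ⟨b, hab⟩ := hab
      obtain ⟨eab, ea, eb, hne, hz1, hz2⟩ := hab' hab
      have hbF : b ∉ G.erase x := by
        rcases hab with ⟨rfl, rfl⟩ | ⟨rfl, rfl⟩ <;> assumption
      have haF : y ∉ G.erase x := by
        rcases hab with ⟨rfl, rfl⟩ | ⟨rfl, rfl⟩ <;> assumption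
      by_cases hxb : ({x, b} : Finset (Fin n)) ∈ Δ
      · -- F + b is a face
        have hbadj : ∀ f ∈ G.erase x, ({f, b} : Finset (Fin n)) ∈ Δ := by
          intro f hf'
          have hfuv : f ≠ u ∧ f ≠ v := ⟨fun e => huF (e ▸ hf'), fun e => hvF (e ▸ hf')⟩
          rcases no4 h1 huv hf hab hfuv hxuv (pair_mem_of_insert h1 hy2 hf') hxb
            (pair_mem h1 hGΔ (Finset.mem_of_mem_erase hf') hx) with h' | h'
          · exact absurd h' hy1
          · exact h'
        have hFab : insert b (insert y (G.erase x)) ∈ Δ := by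
          apply insert_mem_of_adj h1 h2 hy2 eb
          intro f hf'
          rw [Finset.mem_insert] at hf'
          rcases hf' with rfl | hf'
          · exact eab
          · exact hbadj f hf'
        obtain ⟨z, hz3, hz4⟩ := h3 _ hFab b (Finset.mem_insert_self _ _)
        rw [Finset.erase_insert (by simp only [Finset.mem_insert, not_or]; exact ⟨hne.symm, hbF⟩)] at hz4
        have hzb : z ≠ b := by rintro rfl; exact hz3 (by simpa using eb)
        have hza : z ≠ y := by
          rintro rfl; exact hz3 (by rw [Finset.pair_comm]; exact eab)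
        have hzuv := hz1 z hza hzb
        have hz3' : ({z, b} : Finset (Fin n)) ∉ Δ := by rw [Finset.pair_comm]; exact hz3
        have hzy : ({z, y} : Finset (Fin n)) ∈ Δ :=
          pair_mem h1 hz4 (Finset.mem_insert_self _ _) (by simp)
        have hxz : ({x, z} : Finset (Fin n)) ∉ Δ := by
          intro h
          rcases no4 h1 huv hf hab hzuv hxuv hzy hxb (by rw [Finset.pair_comm]; exact h) with h' | h'
          · exact hy1 h'
          · exact hz3' h'
        refine ⟨z, hnadj hxuv hzuv hxz, ?_⟩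
        rw [contract_mem_of_not
          (by simp only [Finset.mem_insert, not_or]; exact ⟨hzuv.1.symm, huF⟩)
          (by simp only [Finset.mem_insert, not_or]; exact ⟨hzuv.2.symm, hvF⟩)]
        exact h1.2 _ hz4 _ (Finset.insert_subset_insert _ (Finset.subset_insert _ _))
      · refine ⟨u, ?_, insert_mem_contract h1 huv huF hvF hab hy2⟩
        rw [Finset.pair_comm]
        exact hnadj' hab hxuv hy1 hxb

/-- the size of the maximal faces under contraction -/
theorem big_contract {Δ : Cx n} (h1 : IsCx Δ) (h3 : Exch Δ) {d : ℕ} (h4 : Big d Δ) {u v : Fin n}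
    (huv : u ≠ v) : Big d (contract u v Δ) := by
  intro G' hG'
  obtain ⟨G, hG, rfl⟩ := mem_contract.1 hG'
  obtain ⟨M, hM, hGM, hMd⟩ := h4 G hG
  by_cases hv : v ∈ M
  · by_cases hu : u ∈ M
    · obtain ⟨y, hy1, hy2⟩ := h3 M hM v hv
      have hyM : y ∉ M := fun h => hy1 (pair_mem h1 hM hv h)
      have hyv : y ≠ v := fun h => hyM (h ▸ hv)
      have hvN : v ∉ insert y (M.erase v) := by simp [hyv.symm]
      refine ⟨insert y (M.erase v), mem_contract.2 ⟨_, hy2, by rw [if_neg hvN]⟩, ?_, ?_⟩
      · intro c hc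
        have : c ∈ M.erase v := by
          split_ifs at hc with h
          · rw [Finset.mem_insert, Finset.mem_erase] at hc
            rcases hc with rfl | hc
            · exact Finset.mem_erase.2 ⟨huv, hu⟩
            · exact Finset.mem_erase.2 ⟨hc.1, hGM hc.2⟩
          · exact Finset.mem_erase.2 ⟨fun e => h (e ▸ hc), hGM hc⟩
        exact Finset.mem_insert_of_mem this
      · rw [Finset.card_insert_of_notMem (fun h => hyM (Finset.mem_of_mem_erase h)),
          Finset.card_erase_of_mem hv]
        have := Finset.card_pos.2 ⟨v, hv⟩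
        omega
    · refine ⟨insert u (M.erase v), mem_contract.2 ⟨_, hM, by rw [if_pos hv]⟩, ?_, ?_⟩
      · intro c hc
        split_ifs at hc with h
        · exact Finset.insert_subset_insert _ (Finset.erase_subset_erase _ hGM) hc
        · exact Finset.mem_insert_of_mem (Finset.mem_erase.2 ⟨fun e => h (e ▸ hc), hGM hc⟩)
      · rw [Finset.card_insert_of_notMem (fun h => hu (Finset.mem_of_mem_erase h)),
          Finset.card_erase_of_mem hv]
        have := Finset.card_pos.2 ⟨v, hv⟩
        omega
  · refine ⟨M, mem_contract.2 ⟨_, hM, by rw [if_neg hv]⟩, ?_, hMd⟩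
    rw [if_neg (fun h => hv (hGM h))]
    exact hGM

/-- links in the combinatorial class -/
theorem link_K {d : ℕ} {Δ : Cx n} (h1 : IsCx Δ) (h2 : IsFlag Δ) (h3 : Exch Δ)
    (h4 : Big d Δ) {F : Finset (Fin n)} (hF : F ∈ Δ) (hc : F.card ≤ d) :
    2 * (d - F.card) ≤ f0 (link Δ F) ∧
      (f0 (link Δ F) = 2 * (d - F.card) ↔ Octa (d - F.card) (link Δ F)) := by
  have h5 := T5p h1 h2 h3 h4 hF hc
  exact ⟨h5.1, h5.2, fun ho => (T6p ho).1⟩

theorem contract_stepK {d : ℕ} (hd : 2 ≤ d) {Δ : Cx n} (h1 : IsCx Δ) (h2 : IsFlag Δ) (h3 : Exch Δ)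
    (h4 : Big d Δ) {u v : Fin n} (huv : u ≠ v) (he : ({u, v} : Finset (Fin n)) ∈ Δ) :
    gamma2 d (contract u v Δ) ≤ gamma2 d Δ ∧
      (gamma2 d (contract u v Δ) = gamma2 d Δ ↔ Octa (d - 2) (link Δ {u, v})) := by
  have hc : ({u, v} : Finset (Fin n)).card = 2 := Finset.card_pair huv
  have h5 := link_K h1 h2 h3 h4 he (by rw [hc]; exact hd)
  rw [hc] at h5
  have h7 := T7q d h1 h2 huv he
  have hcast : ((2 * (d - 2) : ℕ) : ℤ) = 2 * ((d : ℤ) - 2) := by
    push_cast [Nat.cast_sub hd]; ring
  have hle : (2 * ((d : ℤ) - 2)) ≤ (f0 (link Δ {u, v}) : ℤ) := by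
    rw [← hcast]; exact_mod_cast h5.1
  refine ⟨by linarith, ?_⟩
  rw [← h5.2]
  constructor
  · intro h8
    have h9 : (f0 (link Δ {u, v}) : ℤ) = ((2 * (d - 2) : ℕ) : ℤ) := by rw [hcast]; linarith
    exact_mod_cast h9
  · intro h8
    have h9 : (f0 (link Δ {u, v}) : ℤ) = 2 * ((d : ℤ) - 2) := by rw [← hcast, h8]
    linarith

/-- every sequence of contractions through flag complexes -/
theorem all_sequences {d k : ℕ} (hd : 2 ≤ d) (L : Fin (k + 1) → Cx n) (u v : Fin k → Fin n)
    (h0 : FlagSphere d (L 0)) (hfl : ∀ j, IsCx (L j) ∧ IsFlag (L j))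
    (hst : ∀ j : Fin k, u j ≠ v j ∧ ({u j, v j} : Finset (Fin n)) ∈ L j.castSucc ∧
      L j.succ = contract (u j) (v j) (L j.castSucc))
    (hlast : Octa d (L (Fin.last k))) :
    0 ≤ gamma2 d (L 0) ∧
      (gamma2 d (L 0) = 0 ↔ ∀ j : Fin k, Octa (d - 2) (link (L j.castSucc) {u j, v j})) := by
  have hK : ∀ j : Fin (k + 1), Exch (L j) ∧ Big d (L j) := by
    intro j
    induction j using Fin.induction with
    | zero => exact ⟨exch_of_sphere (by omega) h0, big_of_sphere hd h0⟩
    | succ j ih =>
      obtain ⟨huv, he, heq⟩ := hst j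
      have hfl1 := hfl j.castSucc
      have hfl2 := hfl j.succ
      rw [heq] at hfl2 ⊢
      exact ⟨exch_contract hfl1.1 hfl1.2 ih.1 huv he hfl2.2, big_contract hfl1.1 ih.1 ih.2 huv⟩
  have hs : ∀ j : Fin k, gamma2 d (L j.succ) ≤ gamma2 d (L j.castSucc) ∧
      (gamma2 d (L j.succ) = gamma2 d (L j.castSucc) ↔
        Octa (d - 2) (link (L j.castSucc) {u j, v j})) := by
    intro j
    obtain ⟨huv, he, heq⟩ := hst j
    rw [heq]
    exact contract_stepK hd (hfl _).1 (hfl _).2 (hK _).1 (hK _).2 huv he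
  have hg : Antitone (fun j => gamma2 d (L j)) := Fin.antitone_iff_succ_le.2 fun j => (hs j).1
  have hl : gamma2 d (L (Fin.last k)) = 0 := gamma2_octa (by omega) hlast
  refine ⟨?_, ?_⟩
  · have := hg (Fin.zero_le (Fin.last k))
    simp only [hl] at this
    exact this
  · constructor
    · intro h j
      rw [← (hs j).2]
      have h5 : ∀ i : Fin (k + 1), gamma2 d (L i) = 0 := by
        intro i
        have a1 := hg (Fin.zero_le i)
        have a2 := hg (Fin.le_last i)
        simp only [hl] at a2
        simp only [h] at a1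
        exact le_antisymm a1 a2
      rw [h5, h5]
    · intro h
      have hm : Monotone (fun j => gamma2 d (L j)) :=
        Fin.monotone_iff_le_succ.2 fun j => ((hs j).2.2 (h j)).ge
      have a1 := hm (Fin.zero_le (Fin.last k))
      have a2 := hg (Fin.zero_le (Fin.last k))
      simp only [hl] at a1 a2
      exact le_antisymm a1 a2

end Pool.Agent.FSG
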