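import Mathlib

/-!
# Flag spheres, gamma_2 and edge contractions: definitions
-/

set_option autoImplicit false

namespace Pool.Agent.FSG

open Finset

variable {n : ℕ}

/-- Complexes on the vertex set `Fin n` (a finite set of finite sets). -/
abbrev Cx (n : ℕ) := Finset (Finset (Fin n))

/-- Simplicial complex (it contains the empty face). -/
def IsCx (Δ : Cx n) : Prop := ∅ ∈ Δ ∧ ∀ F ∈ Δ, ∀ G : Finset (Fin n), G ⊆ F → G ∈ Δ

/-- Flag: every set of pairwise adjacent vertices is a face. -/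
def IsFlag (Δ : Cx n) : Prop :=
  ∀ F : Finset (Fin n), (∀ a ∈ F, ∀ b ∈ F, ({a, b} : Finset (Fin n)) ∈ Δ) → F ∈ Δ

/-- Geometric realization in `ℝ^n`. -/
def real (Δ : Cx n) : Set (Fin n → ℝ) :=
  {x : Fin n → ℝ | (∀ i, 0 ≤ x i) ∧ ∑ i, x i = 1 ∧ ∃ F ∈ Δ, ∀ i, i ∉ F → x i = 0}

/-- Flag simplicial `(d-1)`-sphere. -/
def FlagSphere (d : ℕ) (Δ : Cx n) : Prop :=
  IsCx Δ ∧ IsFlag Δ ∧
    Nonempty (↥(real Δ) ≃ₜ ↥(Metric.sphere (0 : EuclideanSpace ℝ (Fin d)) 1))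

/-- Link of the face `e`. -/
def link (Δ : Cx n) (e : Finset (Fin n)) : Cx n := Δ.filter (fun F => Disjoint F e ∧ F ∪ e ∈ Δ)

/-- Number of vertices. -/
def f0 (Δ : Cx n) : ℕ := (Δ.filter (fun F => F.card = 1)).card

/-- Number of edges. -/
def f1 (Δ : Cx n) : ℕ := (Δ.filter (fun F => F.card = 2)).card

/-- `γ₂ = f₁ - (2d-3) f₀ + 2d(d-2)`. -/
def gamma2 (d : ℕ) (Δ : Cx n) : ℤ :=
  (f1 Δ : ℤ) - (2 * (d : ℤ) - 3) * (f0 Δ : ℤ) + 2 * (d : ℤ) * ((d : ℤ) - 2)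

/-- `K` is the boundary complex of the `m`-cross-polytope (the octahedral `(m-1)`-sphere). -/
def Octa (m : ℕ) (K : Cx n) : Prop :=
  ∃ p : Fin m × Bool → Fin n, Function.Injective p ∧ ∀ F : Finset (Fin n), F ∈ K ↔
    ∃ G : Finset (Fin m × Bool),
      (∀ i : Fin m, ¬ ((i, true) ∈ G ∧ (i, false) ∈ G)) ∧ F = G.image p

/-- Contraction of the edge `{u,v}` (identify `v` with `u`). -/
def contract (u v : Fin n) (Δ : Cx n) : Cx n :=
  Δ.image (fun F => if v ∈ F then insert u (F.erase v) else F)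

/-- Subdivision of the edge `{u,v}` with the new vertex `w`. -/
def subdiv (u v w : Fin n) (Δ : Cx n) : Cx n :=
  Finset.univ.filter (fun F => ¬ ({u, v} ⊆ F) ∧
    ((w ∉ F ∧ F ∈ Δ) ∨ (w ∈ F ∧ F.erase w ∪ {u, v} ∈ Δ)))

/-- A sequence of edge contractions through complexes with the property `S`, the steps
having the property `Q`, ending in a complex with property `E`. -/
def Seq (S : Cx n → Prop) (Q : Fin n → Fin n → Cx n → Prop) (E : Cx n → Prop) (Δ : Cx n) : Prop :=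
  ∃ k : ℕ, ∃ L : Fin (k + 1) → Cx n, L 0 = Δ ∧ (∀ j, S (L j)) ∧
    (∀ j : Fin k, ∃ u v : Fin n, u ≠ v ∧ ({u, v} : Finset (Fin n)) ∈ L j.castSucc ∧
      Q u v (L j.castSucc) ∧ L j.succ = contract u v (L j.castSucc)) ∧
    E (L (Fin.last k))

/-- The face exchange property: no link is a cone. -/
def Exch (Δ : Cx n) : Prop :=
  ∀ G ∈ Δ, ∀ x ∈ G, ∃ y, ({x, y} : Finset (Fin n)) ∉ Δ ∧ insert y (G.erase x) ∈ Δ

/-- Every face is contained in a face with at least `d` vertices. -/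
def Big (d : ℕ) (Δ : Cx n) : Prop := ∀ F ∈ Δ, ∃ M ∈ Δ, F ⊆ M ∧ d ≤ M.card

end Pool.Agent.FSG
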