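import Pool.Agent.FSG.Main

set_option autoImplicit false

namespace Pool.Agent.FSG

open Finset Polynomial

variable {n : ℕ}

theorem seq_head {S : Cx n → Prop} {Q : Fin n → Fin n → Cx n → Prop} {E : Cx n → Prop} {Δ : Cx n}
    (h : Seq S Q E Δ) : S Δ := by
  obtain ⟨k, L, h0, h1, _, _⟩ := h
  rw [← h0]; exact h1 0

/-- the first step of a sequence -/
theorem seq_first {S : Cx n → Prop} {Q : Fin n → Fin n → Cx n → Prop} {E : Cx n → Prop} {Δ : Cx n}
    (h : Seq S Q E Δ) : E Δ ∨ ∃ u v : Fin n, u ≠ v ∧ ({u, v} : Finset (Fin n)) ∈ Δ ∧ Q u v Δ ∧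
      S (contract u v Δ) := by
  obtain ⟨k, L, h0, h1, h2, h3⟩ := h
  rcases k with _ | k
  · left
    have : (Fin.last 0) = 0 := rfl
    rw [this, h0] at h3
    exact h3
  · right
    obtain ⟨u, v, a, b, c, e⟩ := h2 0
    have h4 : L (Fin.castSucc (0 : Fin (k + 1))) = Δ := by rw [← h0]; rfl
    rw [h4] at b c e
    exact ⟨u, v, a, b, c, by rw [← e]; exact h1 _⟩

/-- the dimension and the `h`-polynomial of the spheres with condition (2) -/
theorem hpoly_of_cond2 {d : ℕ} (hd : 2 ≤ d) {Δ : Cx n} (h : Cond2 d Δ) :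
    (∀ F ∈ Δ, F.card ≤ d) ∧
      hpoly d Δ = (1 + X) ^ d + C ((f0 Δ : ℤ) - 2 * (d : ℤ)) * X * (1 + X) ^ (d - 2) := by
  refine T13p _ _ _ (fun Δ => (∀ F ∈ Δ, F.card ≤ d) ∧
      hpoly d Δ = (1 + X) ^ d + C ((f0 Δ : ℤ) - 2 * (d : ℤ)) * X * (1 + X) ^ (d - 2)) ?_ ?_ h
  · intro Δ _ hE
    refine ⟨fun F hF => card_octa hE hF, ?_⟩
    rw [hpoly_octa hE, (T6p hE).1]
    push_cast
    simp
  · intro Δ u v hS huv he hQ _ hP
    have hdim : ∀ F ∈ Δ, F.card ≤ d := fun F hF =>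
      card_of_contract huv hP.1 hd (fun K hK => card_octa hQ hK) hS.1 hF
    refine ⟨hdim, ?_⟩
    rw [hpoly_contract hS.1 hS.2.1 hdim huv he, hP.2, hpoly_octa hQ, f0_contract hS.1 hS.2.1 huv he]
    push_cast
    simp only [map_sub, map_add, map_mul, map_natCast, map_ofNat, map_one]
    ring

/-- Gal's inequality for `γ₂` and Q1 in dimension `d`, as the existence of one edge -/
theorem local_iff (d : ℕ) (hd : 2 ≤ d) :
    (∀ (n : ℕ) (Δ : Cx n), FlagSphere d Δ → 0 ≤ gamma2 d Δ ∧ (gamma2 d Δ = 0 ↔ Cond2 d Δ)) ↔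
    (∀ (n : ℕ) (Δ : Cx n), FlagSphere d Δ → gamma2 d Δ ≤ 0 → ¬ Octa d Δ →
      ∃ u v : Fin n, u ≠ v ∧ ({u, v} : Finset (Fin n)) ∈ Δ ∧ FlagSphere d (contract u v Δ)) := by
  constructor
  · intro h n Δ hS h0 hO
    have h1 := h n Δ hS
    have h2 : Cond2 d Δ := h1.2.1 (le_antisymm h0 h1.1)
    rcases seq_first h2 with h3 | ⟨u, v, a, b, _, c⟩
    · exact absurd h3 hO
    · exact ⟨u, v, a, b, c⟩
  · intro h n
    have key : ∀ m : ℕ, ∀ Δ : Cx n, f0 Δ = m → FlagSphere d Δ →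
        0 ≤ gamma2 d Δ ∧ (gamma2 d Δ = 0 → Cond2 d Δ) := by
      intro m
      induction m using Nat.strong_induction_on with
      | _ m ih =>
        intro Δ hm hS
        by_cases hO : Octa d Δ
        · exact ⟨(gamma2_octa (by omega) hO).ge, fun _ =>
            ⟨0, fun _ => Δ, rfl, fun _ => hS, fun j => j.elim0, hO⟩⟩
        · rcases lt_or_ge 0 (gamma2 d Δ) with hpos | hle
          · exact ⟨hpos.le, fun h0 => absurd h0 hpos.ne'⟩
          · obtain ⟨u, v, huv, he, hC⟩ := h n Δ hS hle hO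
            have hf := f0_contract hS.1 hS.2.1 huv he
            have h2 := ih (f0 (contract u v Δ)) (by omega) _ rfl hC
            have hst := contract_step hd hS huv he
            refine ⟨h2.1.trans hst.1, fun h0 => ?_⟩
            have h1 : gamma2 d (contract u v Δ) = 0 := le_antisymm (h0 ▸ hst.1) h2.1
            exact T12p _ _ _ hS huv he (hst.2.1 (by rw [h1, h0])) (h2.2 h1)
    intro Δ hS
    have := key _ Δ rfl hS
    exact ⟨this.1, this.2, gamma2_of_cond2 hd⟩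

end Pool.Agent.FSG
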