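import Pool.Agent.FSG.T6

set_option autoImplicit false

namespace Pool.Agent.FSG

open Finset Polynomial

variable {n : ℕ}

/-- the `f`-polynomial `∑_F t^|F|` -/
noncomputable def fpoly (Δ : Cx n) : ℤ[X] := ∑ F ∈ Δ, X ^ F.card

/-- the `h`-polynomial `∑_F t^|F| (1-t)^(d-|F|)` -/
noncomputable def hpoly (d : ℕ) (Δ : Cx n) : ℤ[X] := ∑ F ∈ Δ, X ^ F.card * (1 - X) ^ (d - F.card)

theorem sum_split {A : Type*} [AddCommMonoid A] (g : Finset (Fin n) → A) {u v : Fin n} (huv : u ≠ v) :
    ∑ F : Finset (Fin n), g F = ∑ K ∈ ((Finset.univ.erase u).erase v).powerset,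
      ((g K + g (insert v K)) + (g (insert u K) + g (insert u (insert v K)))) := by
  have h1 : (Finset.univ : Finset (Finset (Fin n))) =
      (insert u (insert v ((Finset.univ.erase u).erase v))).powerset := by
    ext F
    simp only [Finset.mem_univ, Finset.mem_powerset, true_iff]
    intro a _
    by_cases ha : a = u
    · simp [ha]
    · by_cases hb : a = v
      · simp [hb]
      · simp [ha, hb]
  rw [h1, Finset.sum_powerset_insert (by simp [huv]), Finset.sum_powerset_insert (by simp),
    Finset.sum_powerset_insert (by simp)]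
  rw [Finset.sum_add_distrib, Finset.sum_add_distrib, Finset.sum_add_distrib]

theorem wsum_eq {A : Type*} [AddCommMonoid A] (w : ℕ → A) (Δ : Cx n) :
    ∑ F ∈ Δ, w F.card = ∑ F : Finset (Fin n), if F ∈ Δ then w F.card else 0 := by
  rw [← Finset.sum_filter]
  congr 1
  ext F; simp

theorem mem_contract {Δ : Cx n} {u v : Fin n} {H : Finset (Fin n)} :
    H ∈ contract u v Δ ↔ ∃ F ∈ Δ, (if v ∈ F then insert u (F.erase v) else F) = H := by
  unfold contract
  rw [Finset.mem_image]

theorem wsum_contract {A : Type*} [AddCommGroup A] (w : ℕ → A) {Δ : Cx n} (h1 : IsCx Δ)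
    (h2 : IsFlag Δ) {u v : Fin n} (huv : u ≠ v) (he : ({u, v} : Finset (Fin n)) ∈ Δ) :
    ∑ F ∈ Δ, w F.card = ∑ F ∈ contract u v Δ, w F.card +
      ∑ K ∈ link Δ {u, v}, (w (K.card + 1) + w (K.card + 2)) := by
  rw [wsum_eq, wsum_eq, wsum_eq (fun k => w (k + 1) + w (k + 2)), sum_split _ huv,
    sum_split _ huv, sum_split _ huv, ← Finset.sum_add_distrib]
  apply Finset.sum_congr rfl
  intro K hK
  rw [Finset.mem_powerset] at hK
  have hKu : u ∉ K := fun h => by
    have := hK h; simp at this
  have hKv : v ∉ K := fun h => by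
    have := hK h; simp at this
  have hKc : (insert u K).card = K.card + 1 := Finset.card_insert_of_notMem hKu
  have hKc' : (insert v K).card = K.card + 1 := Finset.card_insert_of_notMem hKv
  have huK : u ∉ insert v K := by simp [huv, hKu]
  have hKc2 : (insert u (insert v K)).card = K.card + 2 := by
    rw [Finset.card_insert_of_notMem huK, hKc']
  -- membership in the contraction
  have c1 : K ∈ contract u v Δ ↔ K ∈ Δ := by
    rw [mem_contract]
    constructor
    · rintro ⟨F, hF, h⟩
      split_ifs at h with hv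
      · exact absurd (by rw [← h]; simp) hKu
      · rwa [← h]
    · intro h
      exact ⟨K, h, by simp [hKv]⟩
  have c2 : insert v K ∉ contract u v Δ := by
    rw [mem_contract]
    rintro ⟨F, hF, h⟩
    split_ifs at h with hv
    · have : v ∈ insert u (F.erase v) := by rw [h]; simp
      rw [Finset.mem_insert, Finset.mem_erase] at this
      rcases this with h' | h'
      · exact huv h'.symm
      · exact h'.1 rfl
    · exact hv (by rw [h]; simp)
  have c4 : insert u (insert v K) ∉ contract u v Δ := by
    rw [mem_contract]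
    rintro ⟨F, hF, h⟩
    split_ifs at h with hv
    · have : v ∈ insert u (F.erase v) := by rw [h]; simp
      rw [Finset.mem_insert, Finset.mem_erase] at this
      rcases this with h' | h'
      · exact huv h'.symm
      · exact h'.1 rfl
    · exact hv (by rw [h]; simp)
  have c3 : insert u K ∈ contract u v Δ ↔ insert u K ∈ Δ ∨ insert v K ∈ Δ := by
    rw [mem_contract]
    constructor
    · rintro ⟨F, hF, h⟩
      split_ifs at h with hv
      · right
        refine h1.2 F hF _ ?_
        intro a ha
        rw [Finset.mem_insert] at ha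
        rcases ha with rfl | ha
        · exact hv
        · have : a ∈ insert u (F.erase v) := by rw [h]; exact Finset.mem_insert_of_mem ha
          rw [Finset.mem_insert, Finset.mem_erase] at this
          rcases this with h' | h'
          · exact absurd (h' ▸ ha) hKu
          · exact h'.2
      · left; rwa [← h]
    · rintro (h | h)
      · refine ⟨_, h, ?_⟩
        rw [if_neg (by simp [huv.symm, hKv])]
      · refine ⟨_, h, ?_⟩
        rw [if_pos (by simp), Finset.erase_insert hKv]
  -- membership in the link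
  have hun : insert u (insert v K) = K ∪ {u, v} := by
    ext a
    simp only [Finset.mem_insert, Finset.mem_union, Finset.mem_singleton]
    tauto
  have l1 : K ∈ link Δ {u, v} ↔ insert u (insert v K) ∈ Δ := by
    unfold link
    rw [Finset.mem_filter, hun]
    constructor
    · exact fun h => h.2.2
    · intro h
      refine ⟨h1.2 _ h _ Finset.subset_union_left, ?_, h⟩
      rw [Finset.disjoint_left]
      intro a ha hb
      rw [Finset.mem_insert, Finset.mem_singleton] at hb
      rcases hb with rfl | rfl
      · exact hKu ha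
      · exact hKv ha
  have l2 : insert v K ∉ link Δ {u, v} := by
    unfold link
    rw [Finset.mem_filter]
    rintro ⟨_, h, _⟩
    exact Finset.disjoint_left.1 h (Finset.mem_insert_self _ _) (by simp)
  have l3 : insert u K ∉ link Δ {u, v} := by
    unfold link
    rw [Finset.mem_filter]
    rintro ⟨_, h, _⟩
    exact Finset.disjoint_left.1 h (Finset.mem_insert_self _ _) (by simp)
  have l4 : insert u (insert v K) ∉ link Δ {u, v} := by
    unfold link
    rw [Finset.mem_filter]
    rintro ⟨_, h, _⟩
    exact Finset.disjoint_left.1 h (Finset.mem_insert_self _ _) (by simp)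
  -- flagness
  have fl : insert u K ∈ Δ → insert v K ∈ Δ → insert u (insert v K) ∈ Δ := by
    intro hu hv
    apply h2
    have key : ∀ a ∈ insert u (insert v K), ∀ b ∈ insert u (insert v K),
        a ≠ u → ({a, b} : Finset (Fin n)) ∈ Δ := by
      intro a ha b hb hau
      rw [Finset.mem_insert] at ha
      have ha' := ha.resolve_left hau
      rw [Finset.mem_insert] at hb
      rcases hb with rfl | hb
      · rw [Finset.mem_insert] at ha'
        rcases ha' with rfl | ha'
        · rw [Finset.pair_comm]; exact he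
        · refine h1.2 _ hu _ ?_
          intro c hc
          rw [Finset.mem_insert, Finset.mem_singleton] at hc
          rcases hc with rfl | rfl
          · exact Finset.mem_insert_of_mem ha'
          · exact Finset.mem_insert_self _ _
      · refine h1.2 _ hv _ ?_
        intro c hc
        rw [Finset.mem_insert, Finset.mem_singleton] at hc
        rcases hc with rfl | rfl <;> assumption
    intro a ha b hb
    by_cases hau : a = u
    · by_cases hbu : b = u
      · rw [hau, hbu]
        exact h1.2 _ he _ (by simp)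
      · rw [Finset.pair_comm]
        exact key b hb a ha hbu
    · exact key a ha b hb hau
  have fd1 : insert u (insert v K) ∈ Δ → insert u K ∈ Δ := fun h => h1.2 _ h _
    (Finset.insert_subset_insert _ (Finset.subset_insert _ _))
  have fd2 : insert u (insert v K) ∈ Δ → insert v K ∈ Δ := fun h => h1.2 _ h _
    (Finset.subset_insert _ _)
  simp only [c1, c2, c3, c4, l1, l2, l3, l4, hKc, hKc', hKc2, if_false]
  by_cases ha : insert u (insert v K) ∈ Δ
  · simp only [ha, fd1 ha, fd2 ha, if_true, true_or]
    abel
  · by_cases hu : insert u K ∈ Δ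
    · have hv : insert v K ∉ Δ := fun hv => ha (fl hu hv)
      simp only [ha, hu, hv, if_true, if_false, true_or]
      abel
    · by_cases hv : insert v K ∈ Δ
      · simp only [ha, hu, hv, if_true, if_false, or_true]
        abel
      · simp only [ha, hu, hv, if_false, or_self]
        abel

theorem fpoly_contract {Δ : Cx n} (h1 : IsCx Δ) (h2 : IsFlag Δ) {u v : Fin n} (huv : u ≠ v)
    (he : ({u, v} : Finset (Fin n)) ∈ Δ) :
    fpoly Δ = fpoly (contract u v Δ) + X * (1 + X) * fpoly (link Δ {u, v}) := by
  unfold fpoly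
  rw [wsum_contract (fun k => (X : ℤ[X]) ^ k) h1 h2 huv he, Finset.mul_sum]
  congr 1
  apply Finset.sum_congr rfl
  intro K _
  ring

theorem card_link {Δ : Cx n} {d : ℕ} (hdim : ∀ F ∈ Δ, F.card ≤ d) {u v : Fin n} (huv : u ≠ v)
    {K : Finset (Fin n)} (hK : K ∈ link Δ {u, v}) : K.card + 2 ≤ d := by
  unfold link at hK
  rw [Finset.mem_filter] at hK
  have h := hdim _ hK.2.2
  rw [Finset.card_union_of_disjoint hK.2.1, Finset.card_pair huv] at h
  exact h

theorem hpoly_contract {Δ : Cx n} (h1 : IsCx Δ) (h2 : IsFlag Δ) {d : ℕ}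
    (hdim : ∀ F ∈ Δ, F.card ≤ d) {u v : Fin n} (huv : u ≠ v)
    (he : ({u, v} : Finset (Fin n)) ∈ Δ) :
    hpoly d Δ = hpoly d (contract u v Δ) + X * hpoly (d - 2) (link Δ {u, v}) := by
  unfold hpoly
  rw [wsum_contract (fun k => (X : ℤ[X]) ^ k * (1 - X) ^ (d - k)) h1 h2 huv he, Finset.mul_sum]
  congr 1
  apply Finset.sum_congr rfl
  intro K hK
  have hc := card_link hdim huv hK
  have e1 : d - (K.card + 1) = (d - 2 - K.card) + 1 := by omega
  have e2 : d - (K.card + 2) = d - 2 - K.card := by omega
  rw [e1, e2]
  ring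

theorem coeff_fpoly (Δ : Cx n) (k : ℕ) :
    (fpoly Δ).coeff k = ((Δ.filter (fun F => F.card = k)).card : ℤ) := by
  unfold fpoly
  rw [Polynomial.finsetSum_coeff]
  simp only [Polynomial.coeff_X_pow]
  rw [Finset.card_filter]
  push_cast
  apply Finset.sum_congr rfl
  intro F _
  simp only [eq_comm]

theorem f0_coeff (Δ : Cx n) : (f0 Δ : ℤ) = (fpoly Δ).coeff 1 := (coeff_fpoly Δ 1).symm

theorem f1_coeff (Δ : Cx n) : (f1 Δ : ℤ) = (fpoly Δ).coeff 2 := (coeff_fpoly Δ 2).symm

theorem coeff_zero_fpoly {Δ : Cx n} (h : ∅ ∈ Δ) : (fpoly Δ).coeff 0 = 1 := by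
  rw [coeff_fpoly]
  have : Δ.filter (fun F => F.card = 0) = {∅} := by
    ext F
    simp only [Finset.mem_filter, Finset.card_eq_zero, Finset.mem_singleton]
    constructor
    · exact fun h => h.2
    · rintro rfl; exact ⟨h, rfl⟩
  rw [this]; simp

theorem empty_mem_link {Δ : Cx n} (h1 : IsCx Δ) {e : Finset (Fin n)} (he : e ∈ Δ) :
    ∅ ∈ link Δ e := by
  unfold link
  rw [Finset.mem_filter]
  exact ⟨h1.1, Finset.disjoint_empty_left _, by simpa using he⟩

/-- the number of vertices drops by one -/
theorem f0_contract {Δ : Cx n} (h1 : IsCx Δ) (h2 : IsFlag Δ) {u v : Fin n} (huv : u ≠ v)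
    (he : ({u, v} : Finset (Fin n)) ∈ Δ) : f0 Δ = f0 (contract u v Δ) + 1 := by
  have h := fpoly_contract h1 h2 huv he
  have h3 : (f0 Δ : ℤ) = f0 (contract u v Δ) + 1 := by
    rw [f0_coeff, f0_coeff, h, Polynomial.coeff_add, mul_assoc, Polynomial.coeff_X_mul,
      Polynomial.mul_coeff_zero, coeff_zero_fpoly (empty_mem_link h1 he)]
    simp
  exact_mod_cast h3

/-- the number of edges under contraction -/
theorem f1_contract {Δ : Cx n} (h1 : IsCx Δ) (h2 : IsFlag Δ) {u v : Fin n} (huv : u ≠ v)
    (he : ({u, v} : Finset (Fin n)) ∈ Δ) :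
    (f1 Δ : ℤ) = f1 (contract u v Δ) + 1 + f0 (link Δ {u, v}) := by
  have h := fpoly_contract h1 h2 huv he
  rw [f1_coeff, f1_coeff, f0_coeff, h, Polynomial.coeff_add, mul_assoc, Polynomial.coeff_X_mul,
    add_mul, one_mul, Polynomial.coeff_add, Polynomial.coeff_X_mul,
    coeff_zero_fpoly (empty_mem_link h1 he)]
  ring

/-- `γ₂` under contraction -/
theorem T7q (d : ℕ) {Δ : Cx n} (h1 : IsCx Δ) (h2 : IsFlag Δ) {u v : Fin n} (huv : u ≠ v)
    (he : ({u, v} : Finset (Fin n)) ∈ Δ) :
    gamma2 d Δ = gamma2 d (contract u v Δ) +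
      ((f0 (link Δ {u, v}) : ℤ) - 2 * ((d : ℤ) - 2)) := by
  unfold gamma2
  rw [f1_contract h1 h2 huv he, f0_contract h1 h2 huv he]
  push_cast
  ring

theorem wsum_octa {m : ℕ} {K : Cx n} (h : Octa m K) (a b : ℤ[X]) :
    ∑ F ∈ K, a ^ F.card * b ^ (m - F.card) = (b + 2 * a) ^ m := by
  obtain ⟨p, hp, hK⟩ := h
  -- faces correspond to functions Fin m → Option Bool
  have hK' : K = (Finset.univ.filter (fun G : Finset (Fin m × Bool) =>
      ∀ i : Fin m, ¬ ((i, true) ∈ G ∧ (i, false) ∈ G))).image (fun G => G.image p) := by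
    ext F
    rw [hK, Finset.mem_image]
    constructor
    · rintro ⟨G, hG, rfl⟩
      exact ⟨G, by simpa using hG, rfl⟩
    · rintro ⟨G, hG, rfl⟩
      exact ⟨G, by simpa using hG, rfl⟩
  rw [hK', Finset.sum_image (fun a _ b _ h => Finset.image_injective hp h)]
  have h1 : ∀ G : Finset (Fin m × Bool), (G.image p).card = G.card := fun G =>
    Finset.card_image_of_injective _ hp
  simp only [h1]
  -- product expansion
  have h2 : ((b + 2 * a : ℤ[X])) ^ m = ∏ i : Fin m, ∑ o : Option Bool,
      (match o with
        | none => b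
        | some _ => a) := by
    simp only [Finset.prod_const, Finset.card_univ, Fintype.card_fin]
    congr 1
    rw [Fintype.sum_option]
    simp
  rw [h2, Finset.prod_univ_sum]
  symm
  apply Finset.sum_bij' (i := fun (f : Fin m → Option Bool) _ =>
      (Finset.univ.filter (fun q : Fin m × Bool => f q.1 = some q.2)))
    (j := fun (G : Finset (Fin m × Bool)) _ => fun i =>
      if (i, true) ∈ G then some true else if (i, false) ∈ G then some false else none)
  · intro f _
    simp only [Finset.mem_filter, Finset.mem_univ, true_and]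
    rintro i ⟨h3, h4⟩
    rw [h3] at h4
    simp at h4
  · intro G _
    simp
  · intro f _
    funext i
    simp only [Finset.mem_filter, Finset.mem_univ, true_and]
    rcases h5 : f i with _ | b
    · simp
    · cases b <;> simp
  · intro G hG
    simp only [Finset.mem_filter, Finset.mem_univ, true_and] at hG
    ext ⟨i, b⟩
    simp only [Finset.mem_filter, Finset.mem_univ, true_and]
    have := hG i
    by_cases h3 : (i, true) ∈ G
    · have h4 : (i, false) ∉ G := fun h => this ⟨h3, h⟩
      cases b <;> simp [h3, h4]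
    · by_cases h4 : (i, false) ∈ G
      · cases b <;> simp [h3, h4]
      · cases b <;> simp [h3, h4]
  · intro f _
    have h6 : (Finset.univ.filter (fun q : Fin m × Bool => f q.1 = some q.2)).card =
        ∑ i : Fin m, (if f i = none then 0 else 1) := by
      rw [Finset.card_filter, Fintype.sum_prod_type]
      apply Finset.sum_congr rfl
      intro i _
      rcases hfi : f i with _ | b
      · simp [hfi]
      · cases b <;> simp [hfi]
    have h7 : m - (∑ i : Fin m, (if f i = none then 0 else 1)) =
        ∑ i : Fin m, (if f i = none then 1 else 0) := by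
      have h8 : (∑ i : Fin m, (if f i = none then 0 else 1)) +
          ∑ i : Fin m, (if f i = none then 1 else 0) = m := by
        rw [← Finset.sum_add_distrib]
        have : ∀ i ∈ (Finset.univ : Finset (Fin m)),
            ((if f i = none then 0 else 1) + (if f i = none then 1 else 0)) = 1 := by
          intro i _
          split_ifs <;> rfl
        rw [Finset.sum_congr rfl this]
        simp
      omega
    rw [h6, h7, ← Finset.prod_pow_eq_pow_sum, ← Finset.prod_pow_eq_pow_sum,
      ← Finset.prod_mul_distrib]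
    apply Finset.prod_congr rfl
    intro i _
    rcases f i with _ | b <;> simp

theorem fpoly_octa {m : ℕ} {K : Cx n} (h : Octa m K) : fpoly K = (1 + 2 * X) ^ m := by
  have := wsum_octa h X 1
  simpa [fpoly] using this

theorem hpoly_octa {m : ℕ} {K : Cx n} (h : Octa m K) : hpoly m K = (1 + X) ^ m := by
  unfold hpoly
  rw [wsum_octa h X (1 - X)]
  congr 1
  ring

theorem card_octa {m : ℕ} {K : Cx n} (h : Octa m K) {F : Finset (Fin n)} (hF : F ∈ K) :
    F.card ≤ m := by
  obtain ⟨p, hp, hK⟩ := h
  obtain ⟨G, hG, rfl⟩ := (hK F).1 hF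
  rw [Finset.card_image_of_injective _ hp]
  have h1 : (G.image Prod.fst).card = G.card := by
    apply Finset.card_image_of_injOn
    rintro ⟨i, b⟩ h1 ⟨j, c⟩ h2 h3
    simp only at h3
    subst h3
    have := hG i
    cases b <;> cases c <;> simp_all
  rw [← h1]
  calc (G.image Prod.fst).card ≤ Fintype.card (Fin m) := Finset.card_le_univ _
    _ = m := Fintype.card_fin m

/-- dimension under contraction -/
theorem card_of_contract {Δ : Cx n} {d : ℕ} {u v : Fin n} (huv : u ≠ v)
    (h : ∀ F ∈ contract u v Δ, F.card ≤ d) (hd : 2 ≤ d)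
    (hl : ∀ K ∈ link Δ {u, v}, K.card ≤ d - 2) (h1 : IsCx Δ) {F : Finset (Fin n)} (hF : F ∈ Δ) :
    F.card ≤ d := by
  by_cases hv : v ∈ F
  · by_cases hu : u ∈ F
    · have hs : ({u, v} : Finset (Fin n)) ⊆ F := by
        intro a ha
        rw [Finset.mem_insert, Finset.mem_singleton] at ha
        rcases ha with rfl | rfl <;> assumption
      have hK : F \ {u, v} ∈ link Δ {u, v} := by
        unfold link
        rw [Finset.mem_filter]
        refine ⟨h1.2 _ hF _ Finset.sdiff_subset, Finset.sdiff_disjoint, ?_⟩
        rw [Finset.sdiff_union_of_subset hs]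
        exact hF
      have h2 := hl _ hK
      have h3 := Finset.card_sdiff_add_card_eq_card hs
      rw [Finset.card_pair huv] at h3
      omega
    · have h2 := h (insert u (F.erase v)) (mem_contract.2 ⟨F, hF, by rw [if_pos hv]⟩)
      rw [Finset.card_insert_of_notMem (fun h => hu (Finset.mem_of_mem_erase h)),
        Finset.card_erase_of_mem hv] at h2
      have := Finset.card_pos.2 ⟨v, hv⟩
      omega
  · exact h F (mem_contract.2 ⟨F, hF, by rw [if_neg hv]⟩)

end Pool.Agent.FSG
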