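import Pool.Agent.FSG.Defs

set_option autoImplicit false

namespace Pool.Agent.FSG

open Finset Metric Set

variable {n : ℕ}

theorem real_compact (Δ : Cx n) : IsCompact (real Δ) := by
  have h1 : real Δ = stdSimplex ℝ (Fin n) ∩ ⋃ F ∈ Δ, {x : Fin n → ℝ | ∀ i, i ∉ F → x i = 0} := by
    ext x
    simp only [real, mem_ofPred_eq, mem_inter_iff, mem_iUnion, stdSimplex, exists_prop]
    tauto
  rw [h1]
  refine (isCompact_stdSimplex (𝕜 := ℝ) (Fin n)).inter_right ?_
  refine Set.Finite.isClosed_biUnion (Finset.finite_toSet Δ) fun F _ => ?_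
  simp only [ofPred_forall]
  exact isClosed_iInter fun i => isClosed_iInter fun _ =>
    isClosed_eq (continuous_apply i) continuous_const

theorem sum_ext {d : ℕ} (p : Fin d × Bool → Fin n) (hp : Function.Injective p)
    (y : Fin n → ℝ) (hy : ∀ k, (∀ q, p q ≠ k) → y k = 0) :
    ∑ k, y k = ∑ i, (y (p (i, true)) + y (p (i, false))) := by
  classical
  have h1 : ∑ k, y k = ∑ k ∈ Finset.univ.image p, y k := by
    symm
    refine Finset.sum_subset (Finset.subset_univ _) fun k _ hk => hy k fun q hq => hk ?_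
    rw [← hq]
    exact Finset.mem_image_of_mem _ (Finset.mem_univ _)
  rw [h1, Finset.sum_image fun a _ b _ h => hp h, Fintype.sum_prod_type]
  refine Finset.sum_congr rfl fun i _ => ?_
  rw [Fintype.sum_bool]

/-- T10. -/
theorem T10p {d : ℕ} (hd : 1 ≤ d) {Δ : Cx n} (h : Octa d Δ) :
    Nonempty (↥(real Δ) ≃ₜ ↥(sphere (0 : EuclideanSpace ℝ (Fin d)) 1)) := by
  classical
  obtain ⟨p, hp, hΔ⟩ := h
  let z : (Fin n → ℝ) → EuclideanSpace ℝ (Fin d) := fun x =>
    WithLp.toLp 2 fun i => x (p (i, true)) - x (p (i, false))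
  have hz : ∀ x i, z x i = x (p (i, true)) - x (p (i, false)) := fun x i => rfl
  have hzc : Continuous z := by
    refine (PiLp.continuous_toLp 2 _).comp (continuous_pi fun i => ?_)
    exact (continuous_apply _).sub (continuous_apply _)
  -- facts on points of the realization
  have hoff : ∀ x ∈ real Δ, ∀ k, (∀ q, p q ≠ k) → x k = 0 := by
    rintro x ⟨-, -, F, hF, hx⟩ k hk
    obtain ⟨G, -, rfl⟩ := (hΔ F).mp hF
    refine hx k fun hk' => ?_
    obtain ⟨q, _, hq⟩ := Finset.mem_image.mp hk'
    exact hk q hq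
  have hmul : ∀ x ∈ real Δ, ∀ i, x (p (i, true)) = 0 ∨ x (p (i, false)) = 0 := by
    rintro x ⟨-, -, F, hF, hx⟩ i
    obtain ⟨G, hG, rfl⟩ := (hΔ F).mp hF
    by_cases h1 : (i, true) ∈ G
    · right
      refine hx _ fun hk' => ?_
      obtain ⟨q, hq, hq'⟩ := Finset.mem_image.mp hk'
      rw [hp hq'] at hq
      exact hG i ⟨h1, hq⟩
    · left
      refine hx _ fun hk' => ?_
      obtain ⟨q, hq, hq'⟩ := Finset.mem_image.mp hk'
      rw [hp hq'] at hq
      exact h1 hq
  have habs : ∀ x ∈ real Δ, ∀ i, |z x i| = x (p (i, true)) + x (p (i, false)) := by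
    intro x hx i
    rw [hz]
    have h0 := hx.1 (p (i, true))
    have h1 := hx.1 (p (i, false))
    rcases hmul x hx i with h2 | h2
    · rw [h2, zero_sub, abs_neg, abs_of_nonneg h1, zero_add]
    · rw [h2, sub_zero, abs_of_nonneg h0, add_zero]
  have hsum : ∀ x ∈ real Δ, ∑ i, |z x i| = 1 := by
    intro x hx
    rw [Finset.sum_congr rfl fun i _ => habs x hx i, ← sum_ext p hp x (hoff x hx)]
    exact hx.2.1
  have hne : ∀ x ∈ real Δ, z x ≠ 0 := by
    intro x hx h0
    have := hsum x hx
    rw [h0] at this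
    simp at this
  let φ : ↥(real Δ) → ↥(sphere (0 : EuclideanSpace ℝ (Fin d)) 1) := fun x =>
    ⟨(‖z x.1‖)⁻¹ • z x.1, by
      have h1 : ‖z x.1‖ ≠ 0 := norm_ne_zero_iff.mpr (hne x.1 x.2)
      rw [mem_sphere_zero_iff_norm, norm_smul, norm_inv, norm_norm, inv_mul_cancel₀ h1]⟩
  have hφc : Continuous φ := by
    refine Continuous.subtype_mk ?_ _
    have h1 : Continuous fun x : ↥(real Δ) => z x.1 := hzc.comp continuous_subtype_val
    exact (h1.norm.inv₀ fun x => norm_ne_zero_iff.mpr (hne x.1 x.2)).smul h1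
  have hinj : Function.Injective φ := by
    intro x y hxy
    have h1 : (‖z x.1‖)⁻¹ • z x.1 = (‖z y.1‖)⁻¹ • z y.1 := congrArg Subtype.val hxy
    have hx0 : 0 < ‖z x.1‖ := norm_pos_iff.mpr (hne x.1 x.2)
    have hy0 : 0 < ‖z y.1‖ := norm_pos_iff.mpr (hne y.1 y.2)
    have h2 : ∀ i, (‖z x.1‖)⁻¹ * z x.1 i = (‖z y.1‖)⁻¹ * z y.1 i := by
      intro i
      have := congrArg (fun w : EuclideanSpace ℝ (Fin d) => w i) h1
      simpa using this
    have h3 : (‖z x.1‖)⁻¹ = (‖z y.1‖)⁻¹ := by
      have hx1 := hsum x.1 x.2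
      have hy1 := hsum y.1 y.2
      calc (‖z x.1‖)⁻¹ = (‖z x.1‖)⁻¹ * ∑ i, |z x.1 i| := by rw [hx1, mul_one]
        _ = ∑ i, |(‖z x.1‖)⁻¹ * z x.1 i| := by
            rw [Finset.mul_sum]
            refine Finset.sum_congr rfl fun i _ => ?_
            rw [abs_mul, abs_of_pos (inv_pos.mpr hx0)]
        _ = ∑ i, |(‖z y.1‖)⁻¹ * z y.1 i| := Finset.sum_congr rfl fun i _ => by rw [h2 i]
        _ = (‖z y.1‖)⁻¹ * ∑ i, |z y.1 i| := by
            rw [Finset.mul_sum]
            refine Finset.sum_congr rfl fun i _ => ?_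
            rw [abs_mul, abs_of_pos (inv_pos.mpr hy0)]
        _ = (‖z y.1‖)⁻¹ := by rw [hy1, mul_one]
    have h4 : ∀ i, z x.1 i = z y.1 i := by
      intro i
      have := h2 i
      rw [h3] at this
      exact mul_left_cancel₀ (inv_pos.mpr hy0).ne' this
    apply Subtype.ext
    funext k
    by_cases hk : ∃ q, p q = k
    · obtain ⟨⟨i, b⟩, rfl⟩ := hk
      have h5 := h4 i
      have h6 := habs x.1 x.2 i
      have h7 := habs y.1 y.2 i
      rw [h5] at h6
      rw [hz, hz] at h5
      cases b
      · linarith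
      · linarith
    · rw [hoff x.1 x.2 k fun q hq => hk ⟨q, hq⟩, hoff y.1 y.2 k fun q hq => hk ⟨q, hq⟩]
  have hsurj : Function.Surjective φ := by
    rintro ⟨s, hs⟩
    have hs1 : ‖s‖ = 1 := mem_sphere_zero_iff_norm.mp hs
    set S : ℝ := ∑ i, |s i| with hS
    have hS0 : 0 < S := by
      rcases (Finset.sum_nonneg fun i (_ : i ∈ (Finset.univ : Finset (Fin d))) =>
        abs_nonneg (s i)).lt_or_eq with h0 | h0
      · exact h0
      · exfalso
        have h1 := (Finset.sum_eq_zero_iff_of_nonneg fun i _ => abs_nonneg (s i)).mp h0.symm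
        have h2 : s = 0 := by
          ext i
          exact abs_eq_zero.mp (h1 i (Finset.mem_univ i))
        rw [h2] at hs1
        simp at hs1
    let val : Fin d × Bool → ℝ := fun q => max (if q.2 then s q.1 else - s q.1) 0 / S
    let y : Fin n → ℝ := Function.extend p val (fun _ => (0 : ℝ))
    have hyp : ∀ q, y (p q) = val q := fun q => hp.extend_apply val (fun _ => (0 : ℝ)) q
    have hyo : ∀ k, (∀ q, p q ≠ k) → y k = 0 := by
      intro k hk
      exact Function.extend_apply' (f := p) val (fun _ => (0 : ℝ)) k fun ⟨q, hq⟩ => hk q hq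
    have hval : ∀ q, 0 ≤ val q := fun q => div_nonneg (le_max_right _ _) hS0.le
    have hvs : ∀ i, val (i, true) + val (i, false) = |s i| / S := by
      intro i
      simp only [val, if_true, Bool.false_eq_true, if_false]
      rw [← add_div]
      congr 1
      rcases le_total 0 (s i) with h0 | h0
      · rw [max_eq_left h0, max_eq_right (by linarith), abs_of_nonneg h0, add_zero]
      · rw [max_eq_right h0, max_eq_left (by linarith), abs_of_nonpos h0, zero_add]
    have hvd : ∀ i, val (i, true) - val (i, false) = s i / S := by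
      intro i
      simp only [val, if_true, Bool.false_eq_true, if_false]
      rw [← sub_div]
      congr 1
      rcases le_total 0 (s i) with h0 | h0
      · rw [max_eq_left h0, max_eq_right (by linarith), sub_zero]
      · rw [max_eq_right h0, max_eq_left (by linarith)]; ring
    have hy : y ∈ real Δ := by
      refine ⟨fun k => ?_, ?_, ?_⟩
      · by_cases hk : ∃ q, p q = k
        · obtain ⟨q, rfl⟩ := hk
          rw [hyp]
          exact hval q
        · rw [hyo k fun q hq => hk ⟨q, hq⟩]
      · rw [sum_ext p hp y hyo]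
        simp only [hyp, hvs]
        rw [← Finset.sum_div, ← hS, div_self hS0.ne']
      · refine ⟨(Finset.univ.filter fun q : Fin d × Bool => 0 < val q).image p,
          (hΔ _).mpr ⟨_, fun i => ?_, rfl⟩, fun k hk => ?_⟩
        · simp only [Finset.mem_filter, Finset.mem_univ, true_and, val, if_true,
            Bool.false_eq_true, if_false]
          rintro ⟨h1, h2⟩
          rw [div_pos_iff_of_pos_right hS0] at h1 h2
          rcases lt_max_iff.mp h1 with h1 | h1
          · rcases lt_max_iff.mp h2 with h2 | h2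
            · linarith
            · exact lt_irrefl _ h2
          · exact lt_irrefl _ h1
        · by_cases hk' : ∃ q, p q = k
          · obtain ⟨q, rfl⟩ := hk'
            rw [hyp]
            rcases (hval q).lt_or_eq with h1 | h1
            · exact absurd (Finset.mem_image_of_mem p
                (Finset.mem_filter.mpr ⟨Finset.mem_univ q, h1⟩)) hk
            · exact h1.symm
          · exact hyo k fun q hq => hk' ⟨q, hq⟩
    have hzy : z y = S⁻¹ • s := by
      ext i
      rw [hz, hyp, hyp, hvd]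
      simp [div_eq_inv_mul]
    refine ⟨⟨y, hy⟩, Subtype.ext ?_⟩
    change (‖z y‖)⁻¹ • z y = s
    rw [hzy, norm_smul, hs1, mul_one, norm_inv, Real.norm_of_nonneg hS0.le, inv_inv, smul_smul,
      mul_inv_cancel₀ hS0.ne', one_smul]
  have : CompactSpace ↥(real Δ) := isCompact_iff_compactSpace.mp (real_compact Δ)
  have hc : Continuous (Equiv.ofBijective φ ⟨hinj, hsurj⟩) := hφc
  exact ⟨hc.homeoOfEquivCompactToT2⟩

end Pool.Agent.FSG
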