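import Pool.Agent.FSG.Defs
import Pool.Agent.Lib.Brouwer

/-!
No injective continuous map of a closed `m`-ball into a set of Hausdorff dimension less than `m`.
-/

set_option autoImplicit false

namespace Pool.Agent.FSG

open Finset Metric Set

/-- General form of T2. -/
theorem T2aux {n : ℕ} {E : Type} [NormedAddCommGroup E] [InnerProductSpace ℝ E]
    [FiniteDimensional ℝ E] (K : Set (Fin n → ℝ)) (hK : dimH K < Module.finrank ℝ E)
    (φ : E → (Fin n → ℝ)) (hφ : ContinuousOn φ (closedBall 0 1))
    (hinj : InjOn φ (closedBall 0 1)) (hmap : MapsTo φ (closedBall 0 1) K) : False := by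
  classical
  let e : closedBall (0 : E) 1 → (Fin n → ℝ) := fun y => φ y
  have hec : Continuous e := continuousOn_iff_continuous_domRestrict.1 hφ
  have hei : Function.Injective e := by
    intro x y hxy
    exact Subtype.ext (hinj x.2 y.2 hxy)
  have : CompactSpace (closedBall (0 : E) 1) :=
    isCompact_iff_compactSpace.1 (isCompact_closedBall (0 : E) 1)
  have hemb : Topology.IsClosedEmbedding e := hec.isClosedEmbedding hei
  let f : C(closedBall (0 : E) 1, E) := ⟨Subtype.val, continuous_subtype_val⟩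
  obtain ⟨Ψ, hΨ⟩ := ContinuousMap.exists_extension' hemb f
  have hΨ' : ∀ y ∈ closedBall (0 : E) 1, Ψ (φ y) = y := by
    intro y hy
    exact congrFun hΨ ⟨y, hy⟩
  obtain ⟨q, hq, hqd, -⟩ := Continuous.exists_contDiff_approx (ε := fun _ => (1 / 2 : ℝ)) 1
    Ψ.continuous continuous_const (fun _ => by norm_num)
  have hsub : ball (0 : E) (1 / 2) ⊆ q '' K := by
    intro p hp
    rw [mem_ball_zero_iff] at hp
    have hFc : ContinuousOn (fun y : E => y - q (φ y) + p) (closedBall 0 1) := by
      have h0 : ContinuousOn (fun y : E => q (φ y)) (closedBall 0 1) :=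
        hq.continuous.comp_continuousOn hφ
      exact (continuousOn_id.sub h0).add continuousOn_const
    obtain ⟨y, hy, hfix⟩ := Pool.Agent.Brouwer.fixed_point hFc (by
      intro y hy
      rw [mem_closedBall_zero_iff]
      have h1 : ‖y - q (φ y)‖ ≤ 1 / 2 := by
        have h2 := (hqd (φ y)).le
        rw [hΨ' y hy, dist_eq_norm, norm_sub_rev] at h2
        exact h2
      calc ‖y - q (φ y) + p‖ ≤ ‖y - q (φ y)‖ + ‖p‖ := norm_add_le _ _
        _ ≤ 1 / 2 + 1 / 2 := add_le_add h1 hp.le
        _ = 1 := by norm_num)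
    refine ⟨φ y, hmap hy, ?_⟩
    have h3 : y - q (φ y) + p = y := hfix
    have h4 : q (φ y) = p := by
      have h5 : (y - q (φ y) + p) + q (φ y) - y = y + q (φ y) - y := by rw [h3]
      rw [show (y - q (φ y) + p) + q (φ y) - y = p by abel,
        show y + q (φ y) - y = q (φ y) by abel] at h5
      exact h5.symm
    exact h4
  have hint : (interior (q '' K)).Nonempty := by
    refine ⟨0, ?_⟩
    rw [mem_interior]
    exact ⟨ball 0 (1 / 2), hsub, isOpen_ball, mem_ball_self (by norm_num)⟩
  have hd1 : dimH (q '' K) = Module.finrank ℝ E := Real.dimH_of_nonempty_interior hint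
  have hd2 : dimH (q '' K) ≤ dimH K :=
    hq.contDiffOn.dimH_image_le convex_univ (subset_univ K)
  rw [hd1] at hd2
  exact absurd (lt_of_le_of_lt hd2 hK) (lt_irrefl _)

/-- T2. -/
theorem T2p {n m : ℕ} (hm : 1 ≤ m) (K : Set (Fin n → ℝ)) (hK : dimH K < m)
    (φ : EuclideanSpace ℝ (Fin m) → (Fin n → ℝ)) (hφ : ContinuousOn φ (closedBall 0 1))
    (hinj : InjOn φ (closedBall 0 1)) (hmap : MapsTo φ (closedBall 0 1) K) : False := by
  have _h := hm
  exact T2aux K (by rw [finrank_euclideanSpace_fin]; exact hK) φ hφ hinj hmap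

end Pool.Agent.FSG
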