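import Pool.Agent.FSG.Defs

set_option autoImplicit false

namespace Pool.Agent.FSG

open Finset Metric Set

variable {n : ℕ}

/-- transfer of T1 to the realization -/
theorem no_deform
    (T1 : ∀ {d : ℕ}, 1 ≤ d → ∀ (G : unitInterval × sphere (0 : EuclideanSpace ℝ (Fin d)) 1 →
      sphere (0 : EuclideanSpace ℝ (Fin d)) 1), Continuous G → (∀ z, G (0, z) = z) →
      ∀ p : sphere (0 : EuclideanSpace ℝ (Fin d)) 1, (∀ z, G (1, z) ≠ p) → False)
    {d : ℕ} (hd : 1 ≤ d) {X : Set (Fin n → ℝ)}
    (h : ↥X ≃ₜ ↥(sphere (0 : EuclideanSpace ℝ (Fin d)) 1))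
    (g : unitInterval × X → X) (hg : Continuous g) (h0 : ∀ y, g (0, y) = y)
    (y0 : X) (h1 : ∀ y, g (1, y) ≠ y0) : False := by
  refine T1 hd (fun q => h (g (q.1, h.symm q.2))) ?_ ?_ (h y0) ?_
  · exact h.continuous.comp (hg.comp (continuous_fst.prodMk (h.symm.continuous.comp continuous_snd)))
  · intro z
    simp only [h0, Homeomorph.apply_symm_apply]
  · intro z hz
    exact h1 _ (h.injective hz)

theorem T3' 
    (T1 : ∀ {d : ℕ}, 1 ≤ d → ∀ (G : unitInterval × sphere (0 : EuclideanSpace ℝ (Fin d)) 1 →
      sphere (0 : EuclideanSpace ℝ (Fin d)) 1), Continuous G → (∀ z, G (0, z) = z) →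
      ∀ p : sphere (0 : EuclideanSpace ℝ (Fin d)) 1, (∀ z, G (1, z) ≠ p) → False)
    {d : ℕ} (hd : 1 ≤ d) {Δ : Cx n} (h : FlagSphere d Δ) : Exch Δ := by
  obtain ⟨hcx, hfl, ⟨hom⟩⟩ := h
  intro G hG x hx
  by_contra hcon
  push Not at hcon
  set F := G.erase x with hF
  have hFx : x ∉ F := by simp [hF]
  have hxG : ({x} : Finset (Fin n)) ∈ Δ := hcx.2 G hG _ (by simpa using hx)
  have hFΔ : F ∈ Δ := hcx.2 G hG _ (Finset.erase_subset _ _)
  have hadj : ∀ y, insert y F ∈ Δ → ({x, y} : Finset (Fin n)) ∈ Δ := by
    intro y hy
    by_contra h'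
    exact hcon y h' hy
  have hcone : ∀ H ∈ Δ, F ⊆ H → insert x H ∈ Δ := by
    intro H hH hFH
    apply hfl
    intro a ha b hb
    rw [Finset.mem_insert] at ha hb
    have key : ∀ c ∈ H, ({x, c} : Finset (Fin n)) ∈ Δ := by
      intro c hc
      exact hadj c (hcx.2 H hH _ (Finset.insert_subset hc hFH))
    rcases ha with rfl | ha
    · rcases hb with rfl | hb
      · simpa using hxG
      · exact key b hb
    · rcases hb with rfl | hb
      · rw [Finset.pair_comm]; exact key a ha
      · exact hcx.2 H hH _ (by
          intro c hc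
          rw [Finset.mem_insert, Finset.mem_singleton] at hc
          rcases hc with rfl | rfl <;> assumption)
  rcases F.eq_empty_or_nonempty with hFe | hFn
  · -- the complex is a cone
    have hex : (fun i => if i = x then (1 : ℝ) else 0) ∈ real Δ := by
      refine ⟨fun i => by show (0 : ℝ) ≤ if i = x then 1 else 0; split_ifs <;> norm_num, by simp,
        {x}, hxG, ?_⟩
      intro i hi
      rw [Finset.mem_singleton] at hi
      simp [hi]
    -- another point
    have hz : ∃ y0 : real Δ, y0 ≠ ⟨_, hex⟩ := by
      set z := hom ⟨_, hex⟩ with hz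
      have hneg : -(z : EuclideanSpace ℝ (Fin d)) ∈ sphere (0 : EuclideanSpace ℝ (Fin d)) 1 := by
        have := z.2
        rw [mem_sphere_zero_iff_norm] at this ⊢
        rwa [norm_neg]
      refine ⟨hom.symm ⟨_, hneg⟩, ?_⟩
      intro he
      have h2 : (⟨_, hneg⟩ : sphere (0 : EuclideanSpace ℝ (Fin d)) 1) = z :=
        (hom.apply_symm_apply _).symm.trans (congrArg hom he)
      have h3 : -(z : EuclideanSpace ℝ (Fin d)) = z := congrArg Subtype.val h2
      have h4 : (z : EuclideanSpace ℝ (Fin d)) = 0 := by
        have h5 : (2 : ℝ) • (z : EuclideanSpace ℝ (Fin d)) = 0 := by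
          rw [two_smul]
          nth_rewrite 1 [← h3]
          exact neg_add_cancel _
        exact (smul_eq_zero.1 h5).resolve_left (by norm_num)
      have h5 := z.2
      rw [mem_sphere_zero_iff_norm, h4, norm_zero] at h5
      norm_num at h5
    obtain ⟨y0, hy0⟩ := hz
    let g : unitInterval × real Δ → real Δ := fun q =>
      ⟨fun i => (1 - (q.1 : ℝ)) * (q.2 : Fin n → ℝ) i + (q.1 : ℝ) * (if i = x then 1 else 0), by
        obtain ⟨⟨t, ht0, ht1⟩, ⟨y, hy1, hy2, H, hH, hy3⟩⟩ := q
        refine ⟨?_, ?_, insert x H, hcone H hH (by rw [hFe]; exact Finset.empty_subset _), ?_⟩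
        · intro i
          have := hy1 i
          have h1t : 0 ≤ 1 - t := by linarith
          have : (0 : ℝ) ≤ if i = x then 1 else 0 := by split_ifs <;> norm_num
          have h6 := mul_nonneg h1t (hy1 i)
          have h7 := mul_nonneg ht0 this
          simpa using add_nonneg h6 h7
        · simp only
          rw [Finset.sum_add_distrib, ← Finset.mul_sum, ← Finset.mul_sum, hy2]
          simp
        · intro i hi
          rw [Finset.mem_insert, not_or] at hi
          simp [hy3 i hi.2, hi.1]⟩
    refine no_deform T1 hd hom g ?_ ?_ y0 ?_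
    · apply Continuous.subtype_mk
      apply continuous_pi
      intro i
      have c1 : Continuous fun q : unitInterval × real Δ => (q.1 : ℝ) :=
        continuous_subtype_val.comp continuous_fst
      have c2 : Continuous fun q : unitInterval × real Δ => (q.2 : Fin n → ℝ) i :=
        (continuous_apply i).comp (continuous_subtype_val.comp continuous_snd)
      exact ((continuous_const.sub c1).mul c2).add (c1.mul continuous_const)
    · intro y
      apply Subtype.ext
      funext i
      simp [g]
    · intro y hy
      apply hy0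
      rw [← hy]
      apply Subtype.ext
      funext i
      simp [g]
  · -- the face F is nonempty
    let m : (Fin n → ℝ) → ℝ := fun y => F.inf' hFn y
    have hmc : Continuous m := by
      apply Continuous.finset_inf'_apply
      intro i _
      exact continuous_apply i
    have hmle : ∀ (y : Fin n → ℝ) (i), i ∈ F → m y ≤ y i := fun y i hi => Finset.inf'_le _ hi
    have hmmem : ∀ y : Fin n → ℝ, ∃ i ∈ F, m y = y i := fun y => by
      obtain ⟨i, hi, h⟩ := Finset.exists_mem_eq_inf' hFn y
      exact ⟨i, hi, h⟩
    let g : unitInterval × real Δ → real Δ := fun q =>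
      ⟨fun i => (q.2 : Fin n → ℝ) i + (q.1 : ℝ) * m q.2 * (if i = x then (F.card : ℝ) else 0)
        - (q.1 : ℝ) * m q.2 * (if i ∈ F then 1 else 0), by
        obtain ⟨⟨t, ht0, ht1⟩, ⟨y, hy1, hy2, H, hH, hy3⟩⟩ := q
        have hm0 : 0 ≤ m y := by
          obtain ⟨i, _, hi⟩ := hmmem y
          rw [hi]; exact hy1 i
        have htm : 0 ≤ t * m y := mul_nonneg ht0 hm0
        refine ⟨?_, ?_, ?_⟩
        · intro i
          simp only
          by_cases hiF : i ∈ F
          · have hix : i ≠ x := fun h => hFx (h ▸ hiF)
            have h8 : t * m y ≤ y i := by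
              have := hmle y i hiF
              nlinarith
            simp only [hiF, hix, if_true, if_false]
            linarith
          · simp only [hiF, if_false]
            have h9 : (0 : ℝ) ≤ if i = x then (F.card : ℝ) else 0 := by
              split_ifs
              · positivity
              · exact le_refl _
            have h10 := mul_nonneg htm h9
            have := hy1 i
            linarith
        · simp only
          rw [Finset.sum_sub_distrib, Finset.sum_add_distrib, ← Finset.mul_sum, ← Finset.mul_sum,
            hy2]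
          simp
        · by_cases hFH : F ⊆ H
          · refine ⟨insert x H, hcone H hH hFH, ?_⟩
            intro i hi
            rw [Finset.mem_insert, not_or] at hi
            have hiF : i ∉ F := fun h => hi.2 (hFH h)
            simp [hy3 i hi.2, hi.1, hiF]
          · obtain ⟨j, hjF, hjH⟩ := Finset.not_subset.1 hFH
            have hmz : m y = 0 := le_antisymm ((hmle y j hjF).trans (hy3 j hjH).le) hm0
            refine ⟨H, hH, ?_⟩
            intro i hi
            simp only [hmz]
            rw [hy3 i hi]
            ring⟩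
    have hy0 : (fun i => if i ∈ F then (F.card : ℝ)⁻¹ else 0) ∈ real Δ := by
      have hc : (0 : ℝ) < F.card := by exact_mod_cast hFn.card_pos
      refine ⟨fun i => by
          show (0 : ℝ) ≤ if i ∈ F then (F.card : ℝ)⁻¹ else 0
          split_ifs <;> positivity, ?_, F, hFΔ, fun i hi => by simp [hi]⟩
      rw [Finset.sum_ite_mem, Finset.univ_inter, Finset.sum_const, nsmul_eq_mul]
      exact mul_inv_cancel₀ hc.ne'
    refine no_deform T1 hd hom g ?_ ?_ ⟨_, hy0⟩ ?_
    · apply Continuous.subtype_mk
      apply continuous_pi
      intro i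
      have c1 : Continuous fun q : unitInterval × real Δ => (q.1 : ℝ) :=
        continuous_subtype_val.comp continuous_fst
      have c2 : Continuous fun q : unitInterval × real Δ => (q.2 : Fin n → ℝ) i :=
        (continuous_apply i).comp (continuous_subtype_val.comp continuous_snd)
      have c3 : Continuous fun q : unitInterval × real Δ => m (q.2 : Fin n → ℝ) :=
        hmc.comp (continuous_subtype_val.comp continuous_snd)
      exact (c2.add ((c1.mul c3).mul continuous_const)).sub ((c1.mul c3).mul continuous_const)
    · intro y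
      apply Subtype.ext
      funext i
      simp [g]
    · intro y hy
      obtain ⟨i, hi, him⟩ := hmmem y
      have hc : (0 : ℝ) < F.card := by exact_mod_cast hFn.card_pos
      have h11 := congrFun (congrArg Subtype.val hy) i
      have hix : i ≠ x := fun h => hFx (h ▸ hi)
      simp only [g, hi, hix, if_true, if_false, him, unitInterval, Set.Icc.coe_one] at h11
      have : (F.card : ℝ)⁻¹ ≠ 0 := inv_ne_zero hc.ne'
      apply this
      rw [← h11]
      ring

end Pool.Agent.FSG
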