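import Pool.Agent.FSG.Defs

set_option autoImplicit false

namespace Pool.Agent.FSG

open Finset Metric Set Module

variable {n : ℕ}

/-- the affine span of a nonempty set of coordinate points has small dimension -/
theorem dimH_simplex {M : Finset (Fin n)} (hM : M.Nonempty) {k : ℕ} (hk : M.card ≤ k) :
    dimH {y : Fin n → ℝ | ∑ i, y i = 1 ∧ ∀ i, i ∉ M → y i = 0} < (k : ENNReal) := by
  obtain ⟨i0, hi0⟩ := hM
  let V := {i // i ∈ M.erase i0} → ℝ
  let T : V → (Fin n → ℝ) := fun y i =>
    if h : i ∈ M.erase i0 then y ⟨i, h⟩ else if i = i0 then 1 - ∑ j, y j else 0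
  have hT : ContDiff ℝ 1 T := by
    rw [contDiff_pi]
    intro i
    by_cases h : i ∈ M.erase i0
    · have : (fun y : V => T y i) = fun y => y ⟨i, h⟩ := by
        funext y; simp only [T, h, dif_pos]
      rw [this]
      exact contDiff_apply ℝ ℝ _
    · by_cases h2 : i = i0
      · have : (fun y : V => T y i) = fun y => 1 - ∑ j, y j := by
          funext y; simp only [T, h, dif_neg, not_false_iff, if_pos h2]
        rw [this]
        exact contDiff_const.sub (ContDiff.sum fun j _ => contDiff_apply ℝ ℝ j)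
      · have : (fun y : V => T y i) = fun y => 0 := by
          funext y; simp only [T, h, dif_neg, not_false_iff, if_neg h2]
        rw [this]
        exact contDiff_const
  have hsub : {y : Fin n → ℝ | ∑ i, y i = 1 ∧ ∀ i, i ∉ M → y i = 0} ⊆ Set.range T := by
    rintro y ⟨hy1, hy2⟩
    refine ⟨fun j => y j.1, ?_⟩
    funext i
    by_cases h : i ∈ M.erase i0
    · simp only [T, h, dif_pos]
    · simp only [T, h, dif_neg, not_false_iff]
      by_cases h2 : i = i0
      · rw [if_pos h2, h2]
        have h3 : ∑ j : {i // i ∈ M.erase i0}, y j.1 = ∑ j ∈ M.erase i0, y j := by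
          rw [Finset.sum_coe_sort (M.erase i0) y]
        have h4 : ∑ i, y i = ∑ j ∈ M, y j := by
          symm
          apply Finset.sum_subset (Finset.subset_univ M)
          intro j _ hj
          exact hy2 j hj
        have h5 : y i0 + ∑ j ∈ M.erase i0, y j = ∑ j ∈ M, y j := Finset.add_sum_erase M y hi0
        rw [h3]
        linarith
      · rw [if_neg h2]
        symm
        apply hy2
        intro hi
        exact h (Finset.mem_erase.2 ⟨h2, hi⟩)
  calc dimH {y : Fin n → ℝ | ∑ i, y i = 1 ∧ ∀ i, i ∉ M → y i = 0}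
      ≤ dimH (Set.range T) := dimH_mono hsub
    _ ≤ finrank ℝ V := hT.dimH_range_le
    _ < (k : ENNReal) := by
        have h6 : finrank ℝ V = (M.erase i0).card := by
          simp only [V, Module.finrank_fintype_fun_eq_card, Fintype.card_coe]
        rw [h6, Finset.card_erase_of_mem hi0]
        have : 0 < M.card := Finset.card_pos.2 ⟨i0, hi0⟩
        exact_mod_cast (show M.card - 1 < k by omega)

theorem T4' (T2 : ∀ {n m : ℕ}, 1 ≤ m → ∀ (K : Set (Fin n → ℝ)), dimH K < m →
    ∀ (φ : EuclideanSpace ℝ (Fin m) → (Fin n → ℝ)), ContinuousOn φ (closedBall 0 1) →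
    InjOn φ (closedBall 0 1) → MapsTo φ (closedBall 0 1) K → False)
    {d : ℕ} (hd : 2 ≤ d) {Δ : Cx n} (h : FlagSphere d Δ) : Big d Δ := by
  obtain ⟨hcx, -, ⟨hom⟩⟩ := h
  intro F hF
  by_contra hcon
  push Not at hcon
  obtain ⟨k, rfl⟩ : ∃ k, d = k + 1 := ⟨d - 1, by omega⟩
  -- a face of maximal cardinality containing F
  obtain ⟨M, hM, hmax⟩ := (Δ.filter (fun M => F ⊆ M)).exists_max_image (fun M => M.card)
    ⟨F, by simp [hF]⟩
  rw [Finset.mem_filter] at hM
  have hMd : M.card < k + 1 := hcon M hM.1 hM.2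
  have hmax' : ∀ H ∈ Δ, M ⊆ H → H = M := by
    intro H hH hMH
    exact (Finset.eq_of_subset_of_card_le hMH
      (hmax H (Finset.mem_filter.2 ⟨hH, hM.2.trans hMH⟩))).symm
  have : Fact (finrank ℝ (EuclideanSpace ℝ (Fin (k + 1))) = k + 1) :=
    ⟨finrank_euclideanSpace_fin⟩
  have : Nontrivial (EuclideanSpace ℝ (Fin (k + 1))) :=
    Module.nontrivial_of_finrank_pos (R := ℝ) (by rw [finrank_euclideanSpace_fin]; omega)
  have hMn : M.Nonempty := by
    rw [Finset.nonempty_iff_ne_empty]
    intro hMe
    obtain ⟨z, hz⟩ := (NormedSpace.sphere_nonempty (x := (0 : EuclideanSpace ℝ (Fin (k + 1))))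
      (r := 1)).2 zero_le_one
    obtain ⟨y, hy1, hy2, H, hH, hy3⟩ := hom.symm ⟨z, hz⟩
    have hHM := hmax' H hH (by rw [hMe]; exact Finset.empty_subset _)
    rw [hMe] at hHM
    have : ∑ i, y i = 0 := Finset.sum_eq_zero fun i _ => hy3 i (by simp [hHM])
    rw [this] at hy2
    norm_num at hy2
  have hc : (0 : ℝ) < M.card := by exact_mod_cast hMn.card_pos
  have hb : (fun i => if i ∈ M then (M.card : ℝ)⁻¹ else 0) ∈ real Δ := by
    refine ⟨fun i => by
      show (0 : ℝ) ≤ if i ∈ M then (M.card : ℝ)⁻¹ else 0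
      split_ifs <;> positivity, ?_, M, hM.1, fun i hi => by simp [hi]⟩
    rw [Finset.sum_ite_mem, Finset.univ_inter, Finset.sum_const, nsmul_eq_mul]
    exact mul_inv_cancel₀ hc.ne'
  set b : real Δ := ⟨_, hb⟩ with hbdef
  set z0 : sphere (0 : EuclideanSpace ℝ (Fin (k + 1))) 1 := hom b with hz0
  set v : sphere (0 : EuclideanSpace ℝ (Fin (k + 1))) 1 := -z0 with hv
  set c := stereographic' k v with hcdef
  have hsrc : z0 ∈ c.source := by
    rw [hcdef, stereographic'_source]
    simp only [Set.mem_compl_iff, Set.mem_singleton_iff, hv]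
    intro he
    have h3 : (z0 : EuclideanSpace ℝ (Fin (k + 1))) = -z0 := congrArg Subtype.val he
    have h4 : (z0 : EuclideanSpace ℝ (Fin (k + 1))) = 0 := by
      have h5 : (2 : ℝ) • (z0 : EuclideanSpace ℝ (Fin (k + 1))) = 0 := by
        rw [two_smul]
        nth_rewrite 2 [h3]
        exact add_neg_cancel _
      exact (smul_eq_zero.1 h5).resolve_left (by norm_num)
    have h5 := z0.2
    rw [mem_sphere_zero_iff_norm, h4, norm_zero] at h5
    norm_num at h5
  have htgt : c.target = Set.univ := by rw [hcdef, stereographic'_target]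
  have hcs : Continuous c.symm := by
    rw [← continuousOn_univ, ← htgt]
    exact c.continuousOn_symm
  have hcinj : Function.Injective c.symm := by
    intro a a' haa
    have h1 := c.right_inv (x := a) (by rw [htgt]; trivial)
    have h2 := c.right_inv (x := a') (by rw [htgt]; trivial)
    rw [← h1, haa, h2]
  let ψ : EuclideanSpace ℝ (Fin k) → (Fin n → ℝ) := fun y => (hom.symm (c.symm y) : Fin n → ℝ)
  have hψ : Continuous ψ := continuous_subtype_val.comp (hom.symm.continuous.comp hcs)
  have hψinj : Function.Injective ψ := by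
    intro a a' haa
    exact hcinj (hom.symm.injective (Subtype.ext haa))
  have hψ1 : ψ (c z0) = b := by
    have h1 : c.symm (c z0) = z0 := c.left_inv hsrc
    show ((hom.symm (c.symm (c z0)) : real Δ) : Fin n → ℝ) = b
    rw [h1, hz0, Homeomorph.symm_apply_apply]
  have hopen : IsOpen {y | ∀ i ∈ M, 0 < ψ y i} := by
    have : {y | ∀ i ∈ M, 0 < ψ y i} = ⋂ i ∈ M, {y | 0 < ψ y i} := by
      ext y; simp
    rw [this]
    apply isOpen_biInter_finset
    intro i _
    exact isOpen_lt continuous_const ((continuous_apply i).comp hψ)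
  have hin : c z0 ∈ {y | ∀ i ∈ M, 0 < ψ y i} := by
    intro i hi
    rw [hψ1]
    simp only [hbdef, hi, if_true]
    positivity
  obtain ⟨δ, hδ, hball⟩ := Metric.isOpen_iff.1 hopen _ hin
  have hcont : Continuous (fun y : EuclideanSpace ℝ (Fin k) => c z0 + (δ / 2) • y) :=
    continuous_const.add (continuous_id.const_smul (δ / 2))
  refine T2 (m := k) (by omega) {y : Fin n → ℝ | ∑ i, y i = 1 ∧ ∀ i, i ∉ M → y i = 0}
    (dimH_simplex hMn (by omega)) (fun y => ψ (c z0 + (δ / 2) • y)) ?_ ?_ ?_
  · exact (hψ.comp hcont).continuousOn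
  · intro a _ a' _ haa
    have h1 := hψinj haa
    have h2 := add_left_cancel h1
    exact (smul_right_injective _ (by positivity : (δ / 2 : ℝ) ≠ 0)) h2
  · intro y hy
    rw [mem_closedBall_zero_iff] at hy
    have h1 : c z0 + (δ / 2) • y ∈ ball (c z0) δ := by
      rw [mem_ball, dist_eq_norm, add_sub_cancel_left, norm_smul, Real.norm_of_nonneg (by positivity)]
      nlinarith
    have h2 := hball h1
    obtain ⟨hy1, hy2, H, hH, hy3⟩ := (hom.symm (c.symm (c z0 + (δ / 2) • y))).2
    have hMH : M ⊆ H := by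
      intro i hi
      by_contra hiH
      have h3 := h2 i hi
      have h4 := hy3 i hiH
      simp only [ψ] at h3
      rw [h4] at h3
      exact lt_irrefl _ h3
    have hHM := hmax' H hH hMH
    refine ⟨hy2, fun i hi => hy3 i (by rw [hHM]; exact hi)⟩

end Pool.Agent.FSG
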