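import Pool.Agent.FSG.T5

set_option autoImplicit false

namespace Pool.Agent.FSG

open Finset

variable {n : ℕ}

theorem card_pairs (m : ℕ) :
    (((Finset.univ : Finset (Fin m × Bool)).powersetCard 2).filter
      (fun G => ∀ i : Fin m, ¬ ((i, true) ∈ G ∧ (i, false) ∈ G))).card = 2 * m * (m - 1) := by
  have h1 : ((Finset.univ : Finset (Fin m × Bool)).powersetCard 2).card = (2 * m).choose 2 := by
    rw [Finset.card_powersetCard, Finset.card_univ, Fintype.card_prod, Fintype.card_fin,
      Fintype.card_bool, mul_comm]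
  have h2 : (((Finset.univ : Finset (Fin m × Bool)).powersetCard 2).filter
      (fun G => ¬ ∀ i : Fin m, ¬ ((i, true) ∈ G ∧ (i, false) ∈ G))).card = m := by
    have : (((Finset.univ : Finset (Fin m × Bool)).powersetCard 2).filter
      (fun G => ¬ ∀ i : Fin m, ¬ ((i, true) ∈ G ∧ (i, false) ∈ G))) =
        (Finset.univ : Finset (Fin m)).image (fun i => ({(i, true), (i, false)} : Finset (Fin m × Bool))) := by
      ext G
      simp only [Finset.mem_filter, Finset.mem_powersetCard, Finset.subset_univ, true_and,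
        Finset.mem_image, Finset.mem_univ]
      constructor
      · rintro ⟨hc, h⟩
        push Not at h
        obtain ⟨i, h3, h4⟩ := h
        refine ⟨i, ?_⟩
        apply Finset.eq_of_subset_of_card_le
        · intro c hc
          rw [Finset.mem_insert, Finset.mem_singleton] at hc
          rcases hc with rfl | rfl <;> assumption
        · rw [hc, Finset.card_pair (by simp)]
      · rintro ⟨i, rfl⟩
        refine ⟨Finset.card_pair (by simp), ?_⟩
        push Not
        exact ⟨i, by simp, by simp⟩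
    rw [this, Finset.card_image_of_injective]
    · simp
    · intro i j hij
      have h5 : (i, true) ∈ ({(j, true), (j, false)} : Finset (Fin m × Bool)) := by
        have h6 : (i, true) ∈ ({(i, true), (i, false)} : Finset (Fin m × Bool)) := by simp
        simp only at hij
        rwa [hij] at h6
      simpa using h5
  have h3 := Finset.card_filter_add_card_filter_not (s := (Finset.univ : Finset (Fin m × Bool)).powersetCard 2)
    (fun G => ∀ i : Fin m, ¬ ((i, true) ∈ G ∧ (i, false) ∈ G))
  rw [h1, h2] at h3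
  have h4 : (2 * m).choose 2 = m * (2 * m - 1) := by
    rw [Nat.choose_two_right]
    rw [show 2 * m * (2 * m - 1) = 2 * (m * (2 * m - 1)) by ring]
    exact Nat.mul_div_cancel_left _ (by norm_num)
  rw [h4] at h3
  rcases m with _ | m
  · simp at h3 ⊢
  · have : (m + 1) * (2 * (m + 1) - 1) = 2 * (m + 1) * (m + 1 - 1) + (m + 1) := by
      have : 2 * (m + 1) - 1 = 2 * m + 1 := by omega
      rw [this]
      simp only [Nat.add_sub_cancel]
      ring
    omega

theorem T6p {m : ℕ} {K : Cx n} (h : Octa m K) :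
    f0 K = 2 * m ∧ f1 K = 2 * m * (m - 1) := by
  obtain ⟨p, hp, hK⟩ := h
  constructor
  · rw [f0_eq]
    have : (Finset.univ.filter (fun i : Fin n => ({i} : Finset (Fin n)) ∈ K)) =
        (Finset.univ : Finset (Fin m × Bool)).image p := by
      ext i
      simp only [Finset.mem_filter, Finset.mem_univ, true_and, Finset.mem_image]
      rw [hK]
      constructor
      · rintro ⟨G, _, hG⟩
        have : i ∈ G.image p := by rw [← hG]; simp
        rw [Finset.mem_image] at this
        obtain ⟨q, _, hq⟩ := this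
        exact ⟨q, hq⟩
      · rintro ⟨q, rfl⟩
        refine ⟨{q}, ?_, by simp⟩
        rintro i ⟨h1, h2⟩
        rw [Finset.mem_singleton] at h1 h2
        rw [← h1] at h2
        simp at h2
    rw [this, Finset.card_image_of_injective _ hp, Finset.card_univ, Fintype.card_prod,
      Fintype.card_fin, Fintype.card_bool, mul_comm]
  · unfold f1
    rw [← card_pairs m]
    symm
    apply Finset.card_bij (fun G _ => G.image p)
    · intro G hG
      rw [Finset.mem_filter, Finset.mem_powersetCard] at hG
      rw [Finset.mem_filter, hK]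
      exact ⟨⟨G, hG.2, rfl⟩, by rw [Finset.card_image_of_injective _ hp]; exact hG.1.2⟩
    · intro G _ G' _ h
      exact Finset.image_injective hp h
    · intro F hF
      rw [Finset.mem_filter, hK] at hF
      obtain ⟨⟨G, hG, rfl⟩, hc⟩ := hF
      rw [Finset.card_image_of_injective _ hp] at hc
      exact ⟨G, by rw [Finset.mem_filter, Finset.mem_powersetCard]; exact ⟨⟨Finset.subset_univ _, hc⟩, hG⟩, rfl⟩

theorem T11p {d : ℕ} {Δ : Cx n} (h : Octa d Δ) : IsCx Δ ∧ IsFlag Δ := by
  obtain ⟨p, hp, hK⟩ := h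
  refine ⟨⟨?_, ?_⟩, ?_⟩
  · rw [hK]
    exact ⟨∅, by simp, by simp⟩
  · intro F hF H hHF
    rw [hK] at hF ⊢
    obtain ⟨G, hG, rfl⟩ := hF
    refine ⟨G.filter (fun q => p q ∈ H), ?_, ?_⟩
    · rintro i ⟨h1, h2⟩
      exact hG i ⟨(Finset.mem_filter.1 h1).1, (Finset.mem_filter.1 h2).1⟩
    · ext a
      rw [Finset.mem_image]
      constructor
      · intro ha
        have := hHF ha
        rw [Finset.mem_image] at this
        obtain ⟨q, hq, rfl⟩ := this
        exact ⟨q, Finset.mem_filter.2 ⟨hq, ha⟩, rfl⟩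
      · rintro ⟨q, hq, rfl⟩
        exact (Finset.mem_filter.1 hq).2
  · intro F hF
    rw [hK]
    refine ⟨Finset.univ.filter (fun q => p q ∈ F), ?_, ?_⟩
    · rintro i ⟨h1, h2⟩
      rw [Finset.mem_filter] at h1 h2
      have h3 := hF _ h1.2 _ h2.2
      rw [hK] at h3
      obtain ⟨G, hG, hGe⟩ := h3
      apply hG i
      constructor
      · have : p (i, true) ∈ G.image p := by rw [← hGe]; simp
        obtain ⟨q, hq, hqp⟩ := Finset.mem_image.1 this
        rwa [← hp hqp]
      · have : p (i, false) ∈ G.image p := by rw [← hGe]; simp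
        obtain ⟨q, hq, hqp⟩ := Finset.mem_image.1 this
        rwa [← hp hqp]
    · ext a
      rw [Finset.mem_image]
      constructor
      · intro ha
        have h3 := hF a ha a ha
        rw [hK] at h3
        obtain ⟨G, _, hGe⟩ := h3
        have : a ∈ G.image p := by rw [← hGe]; simp
        rw [Finset.mem_image] at this
        obtain ⟨q, _, rfl⟩ := this
        exact ⟨q, by simp [ha], rfl⟩
      · rintro ⟨q, hq, rfl⟩
        exact (Finset.mem_filter.1 hq).2

theorem T12p (S : Cx n → Prop) (Q : Fin n → Fin n → Cx n → Prop) (E : Cx n → Prop) {Δ : Cx n}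
    (hS : S Δ) {u v : Fin n} (huv : u ≠ v) (he : ({u, v} : Finset (Fin n)) ∈ Δ)
    (hQ : Q u v Δ) (h : Seq S Q E (contract u v Δ)) : Seq S Q E Δ := by
  obtain ⟨k, L, h0, h1, h2, h3⟩ := h
  refine ⟨k + 1, Fin.cons Δ L, rfl, ?_, ?_, ?_⟩
  · intro j
    refine Fin.cases ?_ ?_ j
    · simpa using hS
    · intro i; simpa using h1 i
  · intro j
    refine Fin.cases ?_ ?_ j
    · refine ⟨u, v, huv, ?_, ?_, ?_⟩
      · simpa using he
      · simpa using hQ
      · simp [h0]
    · intro i
      obtain ⟨a, b, hab, h4, h5, h6⟩ := h2 i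
      refine ⟨a, b, hab, ?_, ?_, ?_⟩
      · rw [← Fin.succ_castSucc, Fin.cons_succ]; exact h4
      · rw [← Fin.succ_castSucc, Fin.cons_succ]; exact h5
      · rw [← Fin.succ_castSucc, Fin.cons_succ, Fin.cons_succ]; exact h6
  · rw [← Fin.succ_last, Fin.cons_succ]; exact h3

theorem T13p (S : Cx n → Prop) (Q : Fin n → Fin n → Cx n → Prop) (E : Cx n → Prop)
    (P : Cx n → Prop) (hbase : ∀ Δ, S Δ → E Δ → P Δ)
    (hstep : ∀ Δ (u v : Fin n), S Δ → u ≠ v → ({u, v} : Finset (Fin n)) ∈ Δ → Q u v Δ →
      Seq S Q E (contract u v Δ) → P (contract u v Δ) → P Δ)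
    {Δ : Cx n} (h : Seq S Q E Δ) : P Δ := by
  obtain ⟨k, L, h0, h1, h2, h3⟩ := h
  induction k generalizing Δ with
  | zero =>
    subst h0
    exact hbase _ (h1 0) h3
  | succ k ih =>
    obtain ⟨u, v, huv, h4, h5, h6⟩ := h2 0
    have h7 : Seq S Q E (contract u v Δ) := by
      refine ⟨k, fun j => L j.succ, ?_, fun j => h1 _, ?_, ?_⟩
      · rw [← h0]; exact h6
      · intro j
        obtain ⟨a, b, hab, h8, h9, h10⟩ := h2 j.succ
        refine ⟨a, b, hab, ?_, ?_, ?_⟩
        · exact h8
        · exact h9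
        · exact h10
      · exact h3
    have hL0 : L (Fin.castSucc 0) = Δ := h0
    rw [hL0] at h4 h5 h6
    refine hstep Δ u v (h0 ▸ h1 0) huv h4 h5 h7 ?_
    refine ih (Δ := contract u v Δ) (fun j => L j.succ) ?_ (fun j => h1 _) ?_ ?_
    · exact h6
    · intro j
      obtain ⟨a, b, hab, h8, h9, h10⟩ := h2 j.succ
      refine ⟨a, b, hab, ?_, ?_, ?_⟩
      · exact h8
      · exact h9
      · exact h10
    · exact h3

end Pool.Agent.FSG
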