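import Pool.Agent.FSG.Defs

/-!
# Edge subdivision of a flag complex
-/

set_option autoImplicit false

namespace Pool.Agent.FSG

open Finset

variable {n : ℕ}

lemma mem_subdiv {u v w : Fin n} {Δ : Cx n} {F : Finset (Fin n)} :
    F ∈ subdiv u v w Δ ↔ ¬ (u ∈ F ∧ v ∈ F) ∧
      ((w ∉ F ∧ F ∈ Δ) ∨ (w ∈ F ∧ F.erase w ∪ {u, v} ∈ Δ)) := by
  unfold subdiv
  rw [mem_filter]
  simp only [mem_univ, true_and, insert_subset_iff, singleton_subset_iff]

lemma mem_link' {Δ : Cx n} {e F : Finset (Fin n)} :
    F ∈ link Δ e ↔ F ∈ Δ ∧ Disjoint F e ∧ F ∪ e ∈ Δ := by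
  unfold link
  rw [mem_filter]

lemma notMem_of_face {Δ : Cx n} (h1 : IsCx Δ) {w : Fin n} (hw : ({w} : Finset (Fin n)) ∉ Δ)
    {F : Finset (Fin n)} (hF : F ∈ Δ) : w ∉ F := fun h =>
  hw (h1.2 F hF {w} (singleton_subset_iff.2 h))

lemma subdiv_isCx {Δ : Cx n} (h1 : IsCx Δ) (u v w : Fin n) : IsCx (subdiv u v w Δ) := by
  refine ⟨?_, ?_⟩
  · rw [mem_subdiv]
    refine ⟨fun h => absurd h.1 (notMem_empty _), Or.inl ⟨notMem_empty _, h1.1⟩⟩
  · intro F hF G hGF
    rw [mem_subdiv] at hF ⊢
    refine ⟨fun h => hF.1 ⟨hGF h.1, hGF h.2⟩, ?_⟩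
    by_cases hwG : w ∈ G
    · right
      rcases hF.2 with ⟨h, -⟩ | ⟨-, h⟩
      · exact absurd (hGF hwG) h
      · exact ⟨hwG, h1.2 _ h _ (union_subset_union (erase_subset_erase _ hGF) (Subset.refl _))⟩
    · left
      refine ⟨hwG, ?_⟩
      rcases hF.2 with ⟨-, h⟩ | ⟨-, h⟩
      · exact h1.2 _ h _ hGF
      · refine h1.2 _ h _ ?_
        intro a ha
        rw [mem_union, mem_erase]
        exact Or.inl ⟨fun h => hwG (h ▸ ha), hGF ha⟩

lemma subdiv_isFlag {Δ : Cx n} (h1 : IsCx Δ) (h2 : IsFlag Δ) {u v w : Fin n}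
    (he : ({u, v} : Finset (Fin n)) ∈ Δ) (hw : ({w} : Finset (Fin n)) ∉ Δ) :
    IsFlag (subdiv u v w Δ) := by
  have hwe := notMem_of_face h1 hw he
  rw [mem_insert, mem_singleton, not_or] at hwe
  intro F hF
  rw [mem_subdiv]
  refine ⟨?_, ?_⟩
  · rintro ⟨hu, hv⟩
    have h3 := hF u hu v hv
    rw [mem_subdiv] at h3
    apply h3.1
    simp
  · by_cases hwF : w ∈ F
    · right
      refine ⟨hwF, ?_⟩
      apply h2
      have key : ∀ a ∈ F.erase w, ({a} : Finset (Fin n)) ∪ {u, v} ∈ Δ := by
        intro a ha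
        rw [mem_erase] at ha
        have h3 := hF a ha.2 w hwF
        rw [mem_subdiv] at h3
        rcases h3.2 with ⟨h, -⟩ | ⟨-, h⟩
        · exact absurd (by simp) h
        · refine h1.2 _ h _ ?_
          intro b hb
          rw [mem_union] at hb ⊢
          rcases hb with hb | hb
          · left
            rw [mem_singleton] at hb
            rw [hb, mem_erase]
            exact ⟨ha.1, by simp⟩
          · exact Or.inr hb
      intro a ha b hb
      rw [mem_union] at ha hb
      rcases ha with ha | ha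
      · rcases hb with hb | hb
        · rw [mem_erase] at ha hb
          have h3 := hF a ha.2 b hb.2
          rw [mem_subdiv] at h3
          rcases h3.2 with ⟨-, h⟩ | ⟨h, -⟩
          · exact h
          · rw [mem_insert, mem_singleton] at h
            rcases h with h | h
            · exact absurd h.symm ha.1
            · exact absurd h.symm hb.1
        · refine h1.2 _ (key a ha) _ ?_
          intro c hc
          rw [mem_insert, mem_singleton] at hc
          rw [mem_union, mem_singleton]
          rcases hc with rfl | rfl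
          · exact Or.inl rfl
          · exact Or.inr hb
      · rcases hb with hb | hb
        · refine h1.2 _ (key b hb) _ ?_
          intro c hc
          rw [mem_insert, mem_singleton] at hc
          rw [mem_union, mem_singleton]
          rcases hc with rfl | rfl
          · exact Or.inr ha
          · exact Or.inl rfl
        · refine h1.2 _ he _ ?_
          intro c hc
          rw [mem_insert, mem_singleton] at hc
          rcases hc with rfl | rfl
          · exact ha
          · exact hb
    · left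
      refine ⟨hwF, ?_⟩
      apply h2
      intro a ha b hb
      have h3 := hF a ha b hb
      rw [mem_subdiv] at h3
      rcases h3.2 with ⟨-, h⟩ | ⟨h, -⟩
      · exact h
      · rw [mem_insert, mem_singleton] at h
        rcases h with h | h
        · exact absurd (h ▸ ha) hwF
        · exact absurd (h ▸ hb) hwF

lemma subdiv_edge {Δ : Cx n} (h1 : IsCx Δ) {u v w : Fin n} (huv : u ≠ v)
    (he : ({u, v} : Finset (Fin n)) ∈ Δ) (hw : ({w} : Finset (Fin n)) ∉ Δ) :
    ({u, w} : Finset (Fin n)) ∈ subdiv u v w Δ := by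
  have hwe := notMem_of_face h1 hw he
  rw [mem_insert, mem_singleton, not_or] at hwe
  rw [mem_subdiv]
  refine ⟨?_, Or.inr ⟨by simp, ?_⟩⟩
  · rintro ⟨-, hv⟩
    rw [mem_insert, mem_singleton] at hv
    rcases hv with h | h
    · exact huv h.symm
    · exact hwe.2 h.symm
  · refine h1.2 _ he _ ?_
    intro a ha
    rw [mem_union, mem_erase, mem_insert, mem_singleton] at ha
    rcases ha with ⟨h3, h4⟩ | h
    · rcases h4 with h4 | h4
      · rw [h4]; simp
      · exact absurd h4 h3
    · exact h

lemma contract_subdiv {Δ : Cx n} (h1 : IsCx Δ) {u v w : Fin n} (huv : u ≠ v)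
    (he : ({u, v} : Finset (Fin n)) ∈ Δ) (hw : ({w} : Finset (Fin n)) ∉ Δ) :
    contract u w (subdiv u v w Δ) = Δ := by
  have hwe := notMem_of_face h1 hw he
  rw [mem_insert, mem_singleton, not_or] at hwe
  ext G
  unfold contract
  rw [mem_image]
  constructor
  · rintro ⟨F, hF, rfl⟩
    rw [mem_subdiv] at hF
    rcases hF.2 with ⟨h3, h4⟩ | ⟨h3, h4⟩
    · rw [if_neg h3]; exact h4
    · rw [if_pos h3]
      refine h1.2 _ h4 _ ?_
      intro a ha
      rw [mem_insert] at ha
      rw [mem_union]
      rcases ha with rfl | ha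
      · right; simp
      · exact Or.inl ha
  · intro hG
    have hwG := notMem_of_face h1 hw hG
    by_cases huvG : u ∈ G ∧ v ∈ G
    · refine ⟨insert w (G.erase u), ?_, ?_⟩
      · rw [mem_subdiv]
        refine ⟨?_, Or.inr ⟨mem_insert_self _ _, ?_⟩⟩
        · rintro ⟨hu, -⟩
          rw [mem_insert] at hu
          rcases hu with h | h
          · exact hwe.1 h.symm
          · exact absurd h (notMem_erase _ _)
        · refine h1.2 _ hG _ ?_
          intro a ha
          rw [mem_union, mem_erase, mem_insert] at ha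
          rcases ha with ⟨h3, h4⟩ | h
          · rcases h4 with h4 | h4
            · exact absurd h4 h3
            · exact (mem_erase.1 h4).2
          · rw [mem_insert, mem_singleton] at h
            rcases h with rfl | rfl
            · exact huvG.1
            · exact huvG.2
      · rw [if_pos (mem_insert_self _ _)]
        have h3 : w ∉ G.erase u := fun h => hwG (mem_erase.1 h).2
        rw [erase_insert h3, insert_erase huvG.1]
    · refine ⟨G, ?_, ?_⟩
      · rw [mem_subdiv]
        exact ⟨huvG, Or.inl ⟨hwG, hG⟩⟩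
      · rw [if_neg hwG]

lemma link_subdiv {Δ : Cx n} (h1 : IsCx Δ) {u v w : Fin n} (huv : u ≠ v)
    (he : ({u, v} : Finset (Fin n)) ∈ Δ) (hw : ({w} : Finset (Fin n)) ∉ Δ) :
    link (subdiv u v w Δ) {u, w} = link Δ {u, v} := by
  have hwe := notMem_of_face h1 hw he
  rw [mem_insert, mem_singleton, not_or] at hwe
  ext F
  rw [mem_link', mem_link']
  constructor
  · rintro ⟨h3, h4, h5⟩
    rw [mem_subdiv] at h3 h5
    rw [disjoint_insert_right, disjoint_singleton_right] at h4
    have hvF : v ∉ F := by
      intro h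
      apply h5.1
      refine ⟨by simp, mem_union_left _ h⟩
    have hF : F ∈ Δ := by
      rcases h3.2 with ⟨-, h⟩ | ⟨h, -⟩
      · exact h
      · exact absurd h h4.2
    refine ⟨hF, ?_, ?_⟩
    · rw [disjoint_insert_right, disjoint_singleton_right]
      exact ⟨h4.1, hvF⟩
    · rcases h5.2 with ⟨h, -⟩ | ⟨-, h⟩
      · exact absurd (by simp) h
      · refine h1.2 _ h _ ?_
        intro a ha
        rw [mem_union] at ha
        rw [mem_union, mem_erase]
        rcases ha with ha | ha
        · left
          refine ⟨?_, mem_union_left _ ha⟩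
          rintro rfl
          exact h4.2 ha
        · exact Or.inr ha
  · rintro ⟨h3, h4, h5⟩
    rw [disjoint_insert_right, disjoint_singleton_right] at h4
    have hwF := notMem_of_face h1 hw h3
    refine ⟨?_, ?_, ?_⟩
    · rw [mem_subdiv]
      exact ⟨fun h => h4.1 h.1, Or.inl ⟨hwF, h3⟩⟩
    · rw [disjoint_insert_right, disjoint_singleton_right]
      exact ⟨h4.1, hwF⟩
    · rw [mem_subdiv]
      refine ⟨?_, Or.inr ⟨by simp, ?_⟩⟩
      · rintro ⟨-, hv⟩
        rw [mem_union, mem_insert, mem_singleton] at hv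
        rcases hv with h | h | h
        · exact h4.2 h
        · exact huv h.symm
        · exact hwe.2 h.symm
      · refine h1.2 _ h5 _ ?_
        intro a ha
        rw [mem_union, mem_erase, mem_union, mem_insert, mem_singleton] at ha
        rw [mem_union]
        rcases ha with ⟨h6, h7 | h7 | h7⟩ | h
        · exact Or.inl h7
        · right; rw [h7]; simp
        · exact absurd h7 h6
        · exact Or.inr h

/-- T8. -/
theorem T8p {Δ : Cx n} (h1 : IsCx Δ) (h2 : IsFlag Δ) {u v w : Fin n} (huv : u ≠ v)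
    (he : ({u, v} : Finset (Fin n)) ∈ Δ) (hw : ({w} : Finset (Fin n)) ∉ Δ) :
    IsCx (subdiv u v w Δ) ∧ IsFlag (subdiv u v w Δ) ∧
      ({u, w} : Finset (Fin n)) ∈ subdiv u v w Δ ∧
      contract u w (subdiv u v w Δ) = Δ ∧
      link (subdiv u v w Δ) {u, w} = link Δ {u, v} :=
  ⟨subdiv_isCx h1 u v w, subdiv_isFlag h1 h2 he hw, subdiv_edge h1 huv he hw,
    contract_subdiv h1 huv he hw, link_subdiv h1 huv he hw⟩

end Pool.Agent.FSG
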