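import Pool.Agent.FSG.Defs

set_option autoImplicit false

namespace Pool.Agent.FSG

open Finset

variable {n : ℕ}

/-- `y ↦ x`. -/
noncomputable def t9f (u v w : Fin n) (y : Fin n → ℝ) : Fin n → ℝ := fun i =>
  y i - (if i = w then y w else 0) + (if i = u then y w / 2 else 0) + (if i = v then y w / 2 else 0)

/-- `x ↦ y`. -/
noncomputable def t9g (u v w : Fin n) (x : Fin n → ℝ) : Fin n → ℝ := fun i =>
  x i + (if i = w then 2 * min (x u) (x v) else 0) - (if i = u then min (x u) (x v) else 0)
    - (if i = v then min (x u) (x v) else 0)

theorem t9f_cont (u v w : Fin n) : Continuous (t9f u v w) := by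
  unfold t9f
  refine continuous_pi fun i => ?_
  split_ifs <;> fun_prop

theorem t9g_cont (u v w : Fin n) : Continuous (t9g u v w) := by
  unfold t9g
  refine continuous_pi fun i => ?_
  split_ifs <;> fun_prop

theorem t9f_sum (u v w : Fin n) (y : Fin n → ℝ) : ∑ i, t9f u v w y i = ∑ i, y i := by
  unfold t9f
  simp only [Finset.sum_add_distrib, Finset.sum_sub_distrib, Finset.sum_ite_eq', Finset.mem_univ,
    if_true]
  ring

theorem t9g_sum (u v w : Fin n) (x : Fin n → ℝ) : ∑ i, t9g u v w x i = ∑ i, x i := by
  unfold t9g
  simp only [Finset.sum_add_distrib, Finset.sum_sub_distrib, Finset.sum_ite_eq', Finset.mem_univ,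
    if_true]
  ring

/-- T9. -/
theorem T9p {Δ : Cx n} (h1 : IsCx Δ) {u v w : Fin n} (huv : u ≠ v)
    (he : ({u, v} : Finset (Fin n)) ∈ Δ) (hw : ({w} : Finset (Fin n)) ∉ Δ) :
    Nonempty (↥(real (subdiv u v w Δ)) ≃ₜ ↥(real Δ)) := by
  have hwu : w ≠ u := by
    rintro rfl
    exact hw (h1.2 _ he _ (by simp))
  have hwv : w ≠ v := by
    rintro rfl
    exact hw (h1.2 _ he _ (by simp))
  have hwF : ∀ F ∈ Δ, w ∉ F := fun F hF hwF => hw (h1.2 _ hF _ (by simpa using hwF))
  have hxw : ∀ x ∈ real Δ, x w = 0 := by
    rintro x ⟨-, -, F, hF, hx⟩
    exact hx w (hwF F hF)
  have hfu : ∀ y : Fin n → ℝ, t9f u v w y u = y u + y w / 2 := by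
    intro y
    simp [t9f, hwu.symm, huv]
  have hfv : ∀ y : Fin n → ℝ, t9f u v w y v = y v + y w / 2 := by
    intro y
    simp [t9f, hwv.symm, huv.symm]
  have hfw : ∀ y : Fin n → ℝ, t9f u v w y w = 0 := by
    intro y
    simp [t9f, hwu, hwv]
  have hfi : ∀ (y : Fin n → ℝ) (i : Fin n), i ≠ u → i ≠ v → i ≠ w → t9f u v w y i = y i := by
    intro y i a b c
    simp [t9f, a, b, c]
  have hgu : ∀ x : Fin n → ℝ, t9g u v w x u = x u - min (x u) (x v) := by
    intro x
    simp [t9g, hwu.symm, huv]
  have hgv : ∀ x : Fin n → ℝ, t9g u v w x v = x v - min (x u) (x v) := by
    intro x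
    simp [t9g, hwv.symm, huv.symm]
  have hgw : ∀ x : Fin n → ℝ, t9g u v w x w = x w + 2 * min (x u) (x v) := by
    intro x
    simp [t9g, hwu, hwv]
  have hgi : ∀ (x : Fin n → ℝ) (i : Fin n), i ≠ u → i ≠ v → i ≠ w → t9g u v w x i = x i := by
    intro x i a b c
    simp [t9g, a, b, c]
  -- one of `y u`, `y v` vanishes
  have hmin : ∀ y ∈ real (subdiv u v w Δ), min (y u) (y v) = 0 := by
    rintro y ⟨h0, -, F, hF, hy⟩
    unfold subdiv at hF
    have hF1 := (Finset.mem_filter.1 hF).2.1
    by_cases hu : u ∈ F
    · have hv : v ∉ F := by
        intro hv
        apply hF1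
        intro z hz
        rcases Finset.mem_insert.1 hz with rfl | hz
        · exact hu
        · rwa [Finset.mem_singleton.1 hz]
      rw [hy v hv]
      exact min_eq_right (h0 u)
    · rw [hy u hu]
      exact min_eq_left (h0 v)
  have hfmem : ∀ y ∈ real (subdiv u v w Δ), t9f u v w y ∈ real Δ := by
    rintro y ⟨h0, hs, F, hF, hy⟩
    unfold subdiv at hF
    obtain ⟨-, hF1, hF2⟩ := Finset.mem_filter.1 hF
    refine ⟨?_, by rw [t9f_sum, hs], ?_⟩
    · intro i
      have := h0 w
      by_cases a : i = w
      · rw [a, hfw]
      · by_cases b : i = u
        · rw [b, hfu]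
          have := h0 u
          linarith
        · by_cases c : i = v
          · rw [c, hfv]
            have := h0 v
            linarith
          · rw [hfi y i b c a]
            exact h0 i
    · rcases hF2 with ⟨hw1, hF2⟩ | ⟨hw1, hF2⟩
      · refine ⟨F, hF2, ?_⟩
        intro i hi
        have hyw := hy w hw1
        by_cases a : i = w
        · rw [a, hfw]
        · by_cases b : i = u
          · rw [b, hfu, hyw, hy u (b ▸ hi)]
            ring
          · by_cases c : i = v
            · rw [c, hfv, hyw, hy v (c ▸ hi)]
              ring
            · rw [hfi y i b c a]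
              exact hy i hi
      · refine ⟨_, hF2, ?_⟩
        intro i hi
        rw [Finset.mem_union, Finset.mem_erase] at hi
        push Not at hi
        by_cases a : i = w
        · rw [a, hfw]
        · have b : i ≠ u := by
            rintro rfl
            exact hi.2 (by simp)
          have c : i ≠ v := by
            rintro rfl
            exact hi.2 (by simp)
          rw [hfi y i b c a]
          exact hy i (hi.1 a)
  have hgmem : ∀ x ∈ real Δ, t9g u v w x ∈ real (subdiv u v w Δ) := by
    intro x hx
    have hxw' := hxw x hx
    obtain ⟨h0, hs, F, hF, hx⟩ := hx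
    have hm0 : 0 ≤ min (x u) (x v) := le_min (h0 u) (h0 v)
    refine ⟨?_, by rw [t9g_sum, hs], ?_⟩
    · intro i
      by_cases a : i = w
      · rw [a, hgw, hxw']
        linarith
      · by_cases b : i = u
        · rw [b, hgu]
          have := min_le_left (x u) (x v)
          linarith
        · by_cases c : i = v
          · rw [c, hgv]
            have := min_le_right (x u) (x v)
            linarith
          · rw [hgi x i b c a]
            exact h0 i
    · by_cases huF : u ∈ F
      · by_cases hvF : v ∈ F
        · rcases le_total (x u) (x v) with hle | hle
          · refine ⟨insert w (F.erase u), ?_, ?_⟩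
            · unfold subdiv
              rw [Finset.mem_filter]
              refine ⟨Finset.mem_univ _, ?_, Or.inr ⟨Finset.mem_insert_self _ _, ?_⟩⟩
              · intro hsub
                have := hsub (Finset.mem_insert_self u {v})
                rw [Finset.mem_insert, Finset.mem_erase] at this
                rcases this with h | h
                · exact hwu h.symm
                · exact h.1 rfl
              · have : (insert w (F.erase u)).erase w ∪ {u, v} = F := by
                  ext z
                  simp only [Finset.mem_union, Finset.mem_erase, Finset.mem_insert,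
                    Finset.mem_singleton]
                  constructor
                  · rintro (⟨a, rfl | ⟨b, c⟩⟩ | rfl | rfl)
                    · exact absurd rfl a
                    · exact c
                    · exact huF
                    · exact hvF
                  · intro hz
                    by_cases b : z = u
                    · exact Or.inr (Or.inl b)
                    · exact Or.inl ⟨fun h => hwF F hF (h ▸ hz), Or.inr ⟨b, hz⟩⟩
                rw [this]
                exact hF
            · intro i hi
              rw [Finset.mem_insert, Finset.mem_erase] at hi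
              push Not at hi
              by_cases b : i = u
              · rw [b, hgu, min_eq_left hle, sub_self]
              · have hiF := hi.2 b
                rw [hgi x i b (fun h => hiF (h ▸ hvF)) hi.1]
                exact hx i hiF
          · refine ⟨insert w (F.erase v), ?_, ?_⟩
            · unfold subdiv
              rw [Finset.mem_filter]
              refine ⟨Finset.mem_univ _, ?_, Or.inr ⟨Finset.mem_insert_self _ _, ?_⟩⟩
              · intro hsub
                have := hsub (Finset.mem_insert_of_mem (Finset.mem_singleton_self v))
                rw [Finset.mem_insert, Finset.mem_erase] at this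
                rcases this with h | h
                · exact hwv h.symm
                · exact h.1 rfl
              · have : (insert w (F.erase v)).erase w ∪ {u, v} = F := by
                  ext z
                  simp only [Finset.mem_union, Finset.mem_erase, Finset.mem_insert,
                    Finset.mem_singleton]
                  constructor
                  · rintro (⟨a, rfl | ⟨b, c⟩⟩ | rfl | rfl)
                    · exact absurd rfl a
                    · exact c
                    · exact huF
                    · exact hvF
                  · intro hz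
                    by_cases b : z = v
                    · exact Or.inr (Or.inr b)
                    · exact Or.inl ⟨fun h => hwF F hF (h ▸ hz), Or.inr ⟨b, hz⟩⟩
                rw [this]
                exact hF
            · intro i hi
              rw [Finset.mem_insert, Finset.mem_erase] at hi
              push Not at hi
              by_cases b : i = v
              · rw [b, hgv, min_eq_right hle, sub_self]
              · have hiF := hi.2 b
                rw [hgi x i (fun h => hiF (h ▸ huF)) b hi.1]
                exact hx i hiF
        · have hm : min (x u) (x v) = 0 := by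
            rw [hx v hvF]
            exact min_eq_right (h0 u)
          refine ⟨F, ?_, ?_⟩
          · unfold subdiv
            rw [Finset.mem_filter]
            exact ⟨Finset.mem_univ _, fun h => hvF (h (by simp)), Or.inl ⟨hwF F hF, hF⟩⟩
          · intro i hi
            simp only [t9g, hm]
            simp [hx i hi]
      · have hm : min (x u) (x v) = 0 := by
          rw [hx u huF]
          exact min_eq_left (h0 v)
        refine ⟨F, ?_, ?_⟩
        · unfold subdiv
          rw [Finset.mem_filter]
          exact ⟨Finset.mem_univ _, fun h => huF (h (by simp)), Or.inl ⟨hwF F hF, hF⟩⟩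
        · intro i hi
          simp only [t9g, hm]
          simp [hx i hi]
  refine ⟨{ toFun := fun y => ⟨t9f u v w y.1, hfmem y.1 y.2⟩
            invFun := fun x => ⟨t9g u v w x.1, hgmem x.1 x.2⟩
            left_inv := ?_
            right_inv := ?_
            continuous_toFun := ?_
            continuous_invFun := ?_ }⟩
  · rintro ⟨y, hy⟩
    apply Subtype.ext
    have h2 := hmin y hy
    have h3 : min (t9f u v w y u) (t9f u v w y v) = y w / 2 := by
      rw [hfu, hfv, min_add_add_right, h2, zero_add]
    funext i
    show t9g u v w (t9f u v w y) i = y i
    by_cases a : i = w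
    · rw [a, hgw, h3, hfw]
      ring
    · by_cases b : i = u
      · rw [b, hgu, h3, hfu]
        ring
      · by_cases c : i = v
        · rw [c, hgv, h3, hfv]
          ring
        · rw [hgi _ i b c a, hfi _ i b c a]
  · rintro ⟨x, hx⟩
    apply Subtype.ext
    have h2 := hxw x hx
    funext i
    show t9f u v w (t9g u v w x) i = x i
    by_cases a : i = w
    · rw [a, hfw, h2]
    · by_cases b : i = u
      · rw [b, hfu, hgu, hgw, h2]
        ring
      · by_cases c : i = v
        · rw [c, hfv, hgv, hgw, h2]
          ring
        · rw [hfi _ i b c a, hgi _ i b c a]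
  · exact ((t9f_cont u v w).comp continuous_subtype_val).subtype_mk _
  · exact ((t9g_cont u v w).comp continuous_subtype_val).subtype_mk _

end Pool.Agent.FSG
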