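import Pool.Agent.FSG.T1
import Pool.Agent.FSG.T2
import Pool.Agent.FSG.T3
import Pool.Agent.FSG.T4
import Pool.Agent.FSG.T6
import Pool.Agent.FSG.Poly
import Pool.Agent.FSG.T8
import Pool.Agent.FSG.T9
import Pool.Agent.FSG.T10

set_option autoImplicit false

namespace Pool.Agent.FSG

open Finset Metric

variable {n : ℕ}

theorem exch_of_sphere {d : ℕ} (hd : 1 ≤ d) {Δ : Cx n} (h : FlagSphere d Δ) : Exch Δ :=
  T3' (fun hd G hG h0 p h1 => T1p hd G hG h0 p h1) hd h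

theorem big_of_sphere {d : ℕ} (hd : 2 ≤ d) {Δ : Cx n} (h : FlagSphere d Δ) : Big d Δ :=
  T4' (fun hm K hK φ h1 h2 h3 => T2p hm K hK φ h1 h2 h3) hd h

/-- the boundary of the cross-polytope is a flag sphere -/
theorem flagSphere_of_octa {d : ℕ} (hd : 1 ≤ d) {Δ : Cx n} (h : Octa d Δ) : FlagSphere d Δ :=
  ⟨(T11p h).1, (T11p h).2, T10p hd h⟩

/-- links in flag spheres -/
theorem link_sphere {d : ℕ} (hd : 2 ≤ d) {Δ : Cx n} (h : FlagSphere d Δ) {F : Finset (Fin n)}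
    (hF : F ∈ Δ) (hc : F.card ≤ d) :
    2 * (d - F.card) ≤ f0 (link Δ F) ∧
      (f0 (link Δ F) = 2 * (d - F.card) ↔ Octa (d - F.card) (link Δ F)) := by
  have h5 := T5p h.1 h.2.1 (exch_of_sphere (by omega) h) (big_of_sphere hd h) hF hc
  exact ⟨h5.1, h5.2, fun ho => (T6p ho).1⟩

/-- gamma_2 does not increase under contractions -/
theorem contract_step {d : ℕ} (hd : 2 ≤ d) {Δ : Cx n} (h : FlagSphere d Δ) {u v : Fin n}
    (huv : u ≠ v) (he : ({u, v} : Finset (Fin n)) ∈ Δ) :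
    gamma2 d (contract u v Δ) ≤ gamma2 d Δ ∧
      (gamma2 d (contract u v Δ) = gamma2 d Δ ↔ Octa (d - 2) (link Δ {u, v})) := by
  have hc : ({u, v} : Finset (Fin n)).card = 2 := Finset.card_pair huv
  have h1 := link_sphere hd h he (by rw [hc]; exact hd)
  rw [hc] at h1
  have h7 := T7q d h.1 h.2.1 huv he
  have hcast : ((2 * (d - 2) : ℕ) : ℤ) = 2 * ((d : ℤ) - 2) := by
    push_cast [Nat.cast_sub hd]; ring
  have hle : (2 * ((d : ℤ) - 2)) ≤ (f0 (link Δ {u, v}) : ℤ) := by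
    rw [← hcast]; exact_mod_cast h1.1
  refine ⟨by linarith, ?_⟩
  rw [← h1.2]
  constructor
  · intro h8
    have h9 : (f0 (link Δ {u, v}) : ℤ) = ((2 * (d - 2) : ℕ) : ℤ) := by rw [hcast]; linarith
    exact_mod_cast h9
  · intro h8
    have h9 : (f0 (link Δ {u, v}) : ℤ) = 2 * ((d : ℤ) - 2) := by rw [← hcast, h8]
    linarith

theorem gamma2_octa {d : ℕ} {Δ : Cx n} (hd : 1 ≤ d) (h : Octa d Δ) : gamma2 d Δ = 0 := by
  have h1 := T6p h
  unfold gamma2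
  rw [h1.1, h1.2]
  push_cast [Nat.cast_sub hd]
  ring

/-- reducible through flag spheres, no condition on the links -/
def Red (d : ℕ) (Δ : Cx n) : Prop := Seq (FlagSphere d) (fun _ _ _ => True) (Octa d) Δ

/-- condition (2) -/
def Cond2 (d : ℕ) (Δ : Cx n) : Prop :=
  Seq (FlagSphere d) (fun u v Δ => Octa (d - 2) (link Δ {u, v})) (Octa d) Δ

theorem red_of_cond2 {d : ℕ} {Δ : Cx n} (h : Cond2 d Δ) : Red d Δ := by
  obtain ⟨k, L, h0, h1, h2, h3⟩ := h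
  refine ⟨k, L, h0, h1, fun j => ?_, h3⟩
  obtain ⟨u, v, a, b, _, c⟩ := h2 j
  exact ⟨u, v, a, b, trivial, c⟩

theorem gamma2_of_cond2 {d : ℕ} (hd : 2 ≤ d) {Δ : Cx n} (h : Cond2 d Δ) : gamma2 d Δ = 0 := by
  refine T13p _ _ _ (fun Δ => gamma2 d Δ = 0) ?_ ?_ h
  · intro Δ _ hE
    exact gamma2_octa (by omega) hE
  · intro Δ u v hS huv he hQ _ hP
    rw [← hP]
    exact (((contract_step hd hS huv he).2).2 hQ).symm

theorem red_main {d : ℕ} (hd : 2 ≤ d) {Δ : Cx n} (h : Red d Δ) :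
    0 ≤ gamma2 d Δ ∧ (gamma2 d Δ = 0 → Cond2 d Δ) := by
  refine T13p _ _ _ (fun Δ => 0 ≤ gamma2 d Δ ∧ (gamma2 d Δ = 0 → Cond2 d Δ)) ?_ ?_ h
  · intro Δ hS hE
    refine ⟨(gamma2_octa (by omega) hE).ge, fun _ => ?_⟩
    exact ⟨0, fun _ => Δ, rfl, fun _ => hS, fun j => j.elim0, hE⟩
  · intro Δ u v hS huv he _ _ hP
    have hst := contract_step hd hS huv he
    refine ⟨hP.1.trans hst.1, fun h0 => ?_⟩
    have h1 : gamma2 d (contract u v Δ) = 0 := le_antisymm (h0 ▸ hst.1) hP.1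
    exact T12p _ _ _ hS huv he (hst.2.1 (by rw [h1, h0])) (hP.2 h1)

/-- the main equivalence -/
theorem main_iff {d : ℕ} (hd : 2 ≤ d) {Δ : Cx n} :
    Cond2 d Δ ↔ gamma2 d Δ = 0 ∧ Red d Δ :=
  ⟨fun h => ⟨gamma2_of_cond2 hd h, red_of_cond2 h⟩, fun h => (red_main hd h.2).2 h.1⟩

theorem red_octa {d : ℕ} (hd : 1 ≤ d) {Δ : Cx n} (h : Octa d Δ) : Red d Δ :=
  ⟨0, fun _ => Δ, rfl, fun _ => flagSphere_of_octa hd h, fun j => j.elim0, h⟩

theorem flagSphere_subdiv {d : ℕ} {Δ : Cx n} (h : FlagSphere d Δ) {u v w : Fin n} (huv : u ≠ v)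
    (he : ({u, v} : Finset (Fin n)) ∈ Δ) (hw : ({w} : Finset (Fin n)) ∉ Δ) :
    FlagSphere d (subdiv u v w Δ) := by
  obtain ⟨h1, h2, ⟨f⟩⟩ := h
  obtain ⟨g⟩ := T9p h1 huv he hw
  have h8 := T8p h1 h2 huv he hw
  exact ⟨h8.1, h8.2.1, ⟨g.trans f⟩⟩

theorem red_subdiv {d : ℕ} {Δ : Cx n} (h : FlagSphere d Δ) (hr : Red d Δ) {u v w : Fin n}
    (huv : u ≠ v) (he : ({u, v} : Finset (Fin n)) ∈ Δ) (hw : ({w} : Finset (Fin n)) ∉ Δ) :
    Red d (subdiv u v w Δ) := by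
  have h8 := T8p h.1 h.2.1 huv he hw
  have huw : u ≠ w := by
    rintro rfl
    exact hw (h.1.2 _ he _ (by simp))
  refine T12p _ _ _ (flagSphere_subdiv h huv he hw) huw h8.2.2.1 trivial ?_
  rw [h8.2.2.2.1]
  exact hr

end Pool.Agent.FSG
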