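import Pool.Agent.FSG.Defs
import Pool.Agent.Lib.Brouwer

/-!
A deformation of the identity of the sphere is onto at every time.
-/

set_option autoImplicit false

namespace Pool.Agent.FSG

open Finset Metric Set

/-- T1. -/
theorem T1p {d : ℕ} (hd : 1 ≤ d)
    (G : unitInterval × sphere (0 : EuclideanSpace ℝ (Fin d)) 1 →
      sphere (0 : EuclideanSpace ℝ (Fin d)) 1)
    (hG : Continuous G) (h0 : ∀ z, G (0, z) = z)
    (p : sphere (0 : EuclideanSpace ℝ (Fin d)) 1) (h1 : ∀ z, G (1, z) ≠ p) : False := by
  classical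
  set E := EuclideanSpace ℝ (Fin d) with hE
  have hSn : ∀ z : sphere (0 : E) 1, ‖(z : E)‖ = 1 := fun z => by
    have := z.2
    rwa [mem_sphere_zero_iff_norm] at this
  -- direction
  have hdir : ∀ y : E, y ≠ 0 → ‖y‖⁻¹ • y ∈ sphere (0 : E) 1 := by
    intro y hy
    rw [mem_sphere_zero_iff_norm, norm_smul, norm_inv, norm_norm]
    exact inv_mul_cancel₀ (norm_ne_zero_iff.2 hy)
  let u : E → sphere (0 : E) 1 := fun y => if hy : y = 0 then p else ⟨‖y‖⁻¹ • y, hdir y hy⟩
  have hu : ∀ y : E, y ≠ 0 → ((u y : sphere (0 : E) 1) : E) = ‖y‖⁻¹ • y := by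
    intro y hy
    simp only [u, dif_neg hy]
  have huc : ContinuousOn u {y : E | y ≠ 0} := by
    rw [continuousOn_iff_continuous_domRestrict, Topology.IsInducing.subtypeVal.continuous_iff]
    have h2 : (Subtype.val ∘ Set.domRestrict {y : E | y ≠ 0} u) =
        fun y : {y : E | y ≠ 0} => ‖(y : E)‖⁻¹ • (y : E) := by
      funext y
      exact hu y y.2
    have h3 : Continuous fun y : {y : E | y ≠ 0} => ‖(y : E)‖⁻¹ • (y : E) :=
      (Continuous.inv₀ (continuous_norm.comp continuous_subtype_val)
        (fun y => norm_ne_zero_iff.2 y.2)).smul continuous_subtype_val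
    rw [← h2] at h3
    exact h3
  -- time
  let a : E → unitInterval := fun y => Set.projIcc 0 1 zero_le_one (2 * (1 - ‖y‖))
  have hac : Continuous a := by
    apply continuous_projIcc.comp
    fun_prop
  let w : E → E := fun y => (G (a y, u y) : E)
  have hw1 : ∀ y, ‖w y‖ = 1 := fun y => hSn _
  have hwc : ContinuousOn w {y : E | y ≠ 0} :=
    continuous_subtype_val.comp_continuousOn
      (hG.comp_continuousOn (hac.continuousOn.prodMk huc))
  let b : E → ℝ := fun y => min 1 (2 * ‖y‖)
  have hbc : Continuous b := by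
    show Continuous fun y : E => min 1 (2 * ‖y‖)
    fun_prop
  have hb0 : ∀ y, 0 ≤ b y := fun y => le_min zero_le_one (by positivity)
  have hb1 : ∀ y, b y ≤ 1 := fun y => min_le_left _ _
  let v : E → E := fun y => b y • w y - (1 - b y) • (p : E)
  have hbw : Continuous fun y => b y • w y := by
    rw [continuous_iff_continuousAt]
    intro y
    by_cases hy : y = 0
    · subst hy
      have hb00 : b 0 = 0 := by
        show min 1 (2 * ‖(0 : E)‖) = 0
        rw [norm_zero, mul_zero]
        exact min_eq_right zero_le_one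
      rw [ContinuousAt, hb00, zero_smul, tendsto_zero_iff_norm_tendsto_zero]
      have h3 : (fun y => ‖b y • w y‖) = fun y => b y := by
        funext y
        rw [norm_smul, hw1, mul_one, Real.norm_of_nonneg (hb0 y)]
      rw [h3, ← hb00]
      exact hbc.continuousAt
    · exact hbc.continuousAt.smul (hwc.continuousAt (isOpen_ne.mem_nhds hy))
  have hvc : Continuous v := hbw.sub ((continuous_const.sub hbc).smul continuous_const)
  have hv0 : ∀ y, ‖y‖ ≤ 1 → v y ≠ 0 := by
    intro y hy h
    have h4 : b y • w y = (1 - b y) • (p : E) := sub_eq_zero.1 h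
    have h5 : b y = 1 - b y := by
      have := congrArg norm h4
      rw [norm_smul, norm_smul, hw1, hSn p, mul_one, mul_one, Real.norm_of_nonneg (hb0 y),
        Real.norm_of_nonneg (by linarith [hb1 y])] at this
      exact this
    have h6 : b y = 1 / 2 := by linarith
    have h7 : ‖y‖ = 1 / 4 := by
      have : min 1 (2 * ‖y‖) = 1 / 2 := h6
      rcases min_choice 1 (2 * ‖y‖) with h8 | h8 <;> rw [h8] at this <;> linarith
    have h8 : a y = 1 := by
      apply Set.projIcc_of_right_le
      rw [h7]
      norm_num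
    rw [← h5, h6] at h4
    have h9 : w y = (p : E) := smul_right_injective _ (by norm_num : (1 / 2 : ℝ) ≠ 0) h4
    have h10 : G (1, u y) = p := by
      apply Subtype.ext
      rw [← h8]
      exact h9
    exact h1 _ h10
  refine Pool.Agent.Brouwer.no_retraction (E := E) (ρ := 1) zero_lt_one
    (f := fun y => ‖v y‖⁻¹ • v y) ?_ ?_ ?_
  · exact (hvc.norm.continuousOn.inv₀ fun y hy =>
      norm_ne_zero_iff.2 (hv0 y (mem_closedBall_zero_iff.1 hy))).smul hvc.continuousOn
  · intro y hy
    rw [norm_smul, norm_inv, norm_norm]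
    exact inv_mul_cancel₀ (norm_ne_zero_iff.2 (hv0 y (mem_closedBall_zero_iff.1 hy)))
  · intro y hy
    have hy0 : y ≠ 0 := by
      intro h
      rw [h, norm_zero] at hy
      norm_num at hy
    have hby : b y = 1 := by
      show min 1 (2 * ‖y‖) = 1
      rw [hy]
      norm_num
    have hay : a y = 0 := by
      apply Set.projIcc_of_le_left
      rw [hy]
      norm_num
    have hwy : w y = y := by
      show ((G (a y, u y) : sphere (0 : E) 1) : E) = y
      rw [hay, h0, hu y hy0, hy, inv_one, one_smul]
    have hvy : v y = y := by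
      show b y • w y - (1 - b y) • (p : E) = y
      rw [hby, hwy, one_smul, sub_self, zero_smul, sub_zero]
    show ‖v y‖⁻¹ • v y = y
    rw [hvy, hy, inv_one, one_smul]

end Pool.Agent.FSG
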