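import Pool.Agent.FSG.Defs

set_option autoImplicit false

namespace Pool.Agent.FSG

open Finset

variable {n : ℕ}

theorem f0_eq (K : Cx n) : f0 K = (Finset.univ.filter (fun i : Fin n => ({i} : Finset (Fin n)) ∈ K)).card := by
  unfold f0
  symm
  apply Finset.card_bij (fun i _ => ({i} : Finset (Fin n)))
  · intro i hi
    simp only [Finset.mem_filter, Finset.mem_univ, true_and] at hi
    simp [hi]
  · intro i _ j _ h
    exact Finset.singleton_injective h
  · intro F hF
    rw [Finset.mem_filter, Finset.card_eq_one] at hF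
    obtain ⟨hF, i, rfl⟩ := hF
    exact ⟨i, by simpa using hF, rfl⟩

theorem T5p {d : ℕ} {Δ : Cx n} (h1 : IsCx Δ) (h2 : IsFlag Δ) (h3 : Exch Δ) (h4 : Big d Δ)
    {F : Finset (Fin n)} (hF : F ∈ Δ) (hc : F.card ≤ d) :
    2 * (d - F.card) ≤ f0 (link Δ F) ∧
      (f0 (link Δ F) = 2 * (d - F.card) → Octa (d - F.card) (link Δ F)) := by
  obtain ⟨M, hM, hFM, hMd⟩ := h4 F hF
  have hex : ∀ x : Fin n, ∃ y, x ∈ M → ({x, y} : Finset (Fin n)) ∉ Δ ∧ insert y (M.erase x) ∈ Δ := by
    intro x
    by_cases hx : x ∈ M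
    · obtain ⟨y, hy⟩ := h3 M hM x hx
      exact ⟨y, fun _ => hy⟩
    · exact ⟨x, fun h => absurd h hx⟩
  choose y hy using hex
  set R := M \ F with hR
  have hRc : R.card = M.card - F.card := Finset.card_sdiff_of_subset hFM
  have hpairM : ∀ a ∈ M, ∀ b ∈ M, ({a, b} : Finset (Fin n)) ∈ Δ := fun a ha b hb =>
    h1.2 M hM _ (by
      intro c hc
      rw [Finset.mem_insert, Finset.mem_singleton] at hc
      rcases hc with rfl | rfl <;> assumption)
  have hyM : ∀ x ∈ M, y x ∉ M := fun x hx h => (hy x hx).1 (hpairM x hx _ h)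
  have hRM : ∀ x ∈ R, x ∈ M := fun x hx => (Finset.mem_sdiff.1 hx).1
  have hRF : ∀ x ∈ R, x ∉ F := fun x hx => (Finset.mem_sdiff.1 hx).2
  -- adjacency of y x with the rest of M
  have hadj : ∀ x ∈ M, ∀ a ∈ M, a ≠ x → ({a, y x} : Finset (Fin n)) ∈ Δ := by
    intro x hx a ha hax
    refine h1.2 _ (hy x hx).2 _ ?_
    intro c hc
    rw [Finset.mem_insert, Finset.mem_singleton] at hc
    rcases hc with rfl | rfl
    · exact Finset.mem_insert_of_mem (Finset.mem_erase.2 ⟨hax, ha⟩)
    · exact Finset.mem_insert_self _ _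
  have hyinj : ∀ x ∈ M, ∀ x' ∈ M, y x = y x' → x = x' := by
    intro x hx x' hx' h
    by_contra hne
    exact (hy x hx).1 (h ▸ hadj x' hx' x hx hne)
  set V := Finset.univ.filter (fun i : Fin n => ({i} : Finset (Fin n)) ∈ link Δ F) with hV
  have hVmem : ∀ i, i ∈ V ↔ i ∉ F ∧ insert i F ∈ Δ := by
    intro i
    simp only [hV, link, Finset.mem_filter, Finset.mem_univ, true_and,
      Finset.disjoint_singleton_left]
    constructor
    · rintro ⟨_, h, h'⟩
      exact ⟨h, by rwa [Finset.insert_eq]⟩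
    · rintro ⟨h, h'⟩
      refine ⟨h1.2 _ h' _ (by simp), h, by rwa [Finset.insert_eq] at h'⟩
  have hRV : R ⊆ V := by
    intro x hx
    rw [hVmem]
    exact ⟨hRF x hx, h1.2 M hM _ (Finset.insert_subset (hRM x hx) hFM)⟩
  have hyV : R.image y ⊆ V := by
    intro z hz
    rw [Finset.mem_image] at hz
    obtain ⟨x, hx, rfl⟩ := hz
    rw [hVmem]
    refine ⟨fun h => hyM x (hRM x hx) (hFM h), h1.2 _ (hy x (hRM x hx)).2 _ ?_⟩
    apply Finset.insert_subset_insert
    intro a ha
    exact Finset.mem_erase.2 ⟨fun h => hRF x hx (h ▸ ha), hFM ha⟩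
  have hdisj : Disjoint R (R.image y) := by
    rw [Finset.disjoint_left]
    intro z hz hz'
    rw [Finset.mem_image] at hz'
    obtain ⟨x, hx, rfl⟩ := hz'
    exact hyM x (hRM x hx) (hRM _ hz)
  have hcard : (R ∪ R.image y).card = 2 * R.card := by
    rw [Finset.card_union_of_disjoint hdisj, Finset.card_image_of_injOn]
    · ring
    · intro a ha b hb hab
      exact hyinj a (hRM a ha) b (hRM b hb) hab
  have hsub : R ∪ R.image y ⊆ V := Finset.union_subset hRV hyV
  have hle : 2 * R.card ≤ V.card := hcard ▸ Finset.card_le_card hsub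
  have hf0 : f0 (link Δ F) = V.card := f0_eq _
  refine ⟨by rw [hf0]; omega, ?_⟩
  intro heq
  rw [hf0] at heq
  have hRm : R.card = d - F.card := by omega
  have hVeq : R ∪ R.image y = V := Finset.eq_of_subset_of_card_le hsub (by omega)
  -- adjacency of y x and y x'
  have hyy : ∀ x ∈ R, ∀ x' ∈ R, x ≠ x' → ({y x, y x'} : Finset (Fin n)) ∈ Δ := by
    intro x hx x' hx' hne
    have hxM := hRM x hx
    have hx'M := hRM x' hx'
    have hxG : x ∈ insert (y x') (M.erase x') :=
      Finset.mem_insert_of_mem (Finset.mem_erase.2 ⟨hne, hxM⟩)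
    obtain ⟨z, hz1, hz2⟩ := h3 _ (hy x' hx'M).2 x hxG
    have hFsub : F ⊆ (insert (y x') (M.erase x')).erase x := by
      intro a ha
      refine Finset.mem_erase.2 ⟨fun h => hRF x hx (h ▸ ha), Finset.mem_insert_of_mem ?_⟩
      exact Finset.mem_erase.2 ⟨fun h => hRF x' hx' (h ▸ ha), hFM ha⟩
    have hzF : z ∉ F := fun h => hz1 (hpairM x hxM z (hFM h))
    have hzV : z ∈ V := by
      rw [hVmem]
      exact ⟨hzF, h1.2 _ hz2 _ (Finset.insert_subset_insert _ hFsub)⟩
    rw [← hVeq, Finset.mem_union, Finset.mem_image] at hzV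
    have hzy : z = y x := by
      rcases hzV with h | ⟨x'', hx'', rfl⟩
      · exact absurd (hpairM x hxM z (hRM z h)) hz1
      · by_contra hne'
        have : x ≠ x'' := fun h => hne' (by rw [h])
        exact hz1 (hadj x'' (hRM x'' hx'') x hxM this)
    rw [hzy] at hz2
    refine h1.2 _ hz2 _ ?_
    intro c hc
    rw [Finset.mem_insert, Finset.mem_singleton] at hc
    rcases hc with rfl | rfl
    · exact Finset.mem_insert_self _ _
    · refine Finset.mem_insert_of_mem (Finset.mem_erase.2 ⟨?_, Finset.mem_insert_self _ _⟩)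
      intro h
      exact hyM x' hx'M (h ▸ hxM)
  -- the parametrisation
  let e := R.equivFin.symm
  have hRm' : R.card = d - F.card := hRm
  let ι : Fin (d - F.card) → Fin n := fun i => (e (Fin.cast hRm'.symm i) : Fin n)
  have hιR : ∀ i, ι i ∈ R := fun i => (e (Fin.cast hRm'.symm i)).2
  have hιinj : Function.Injective ι := by
    intro i j hij
    have := e.injective (Subtype.ext hij)
    exact Fin.cast_injective _ this
  have hιsurj : ∀ x ∈ R, ∃ i, ι i = x := by
    intro x hx
    refine ⟨Fin.cast hRm' (e.symm ⟨x, hx⟩), ?_⟩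
    simp [ι]
  let p : Fin (d - F.card) × Bool → Fin n := fun q => if q.2 then ι q.1 else y (ι q.1)
  have hpV : ∀ q, p q ∈ V := by
    intro q
    rw [← hVeq, Finset.mem_union]
    by_cases hq : q.2 = true
    · left; simp only [p, hq, if_true]; exact hιR _
    · right
      simp only [p, hq]
      exact Finset.mem_image_of_mem _ (hιR _)
  have hpsurj : ∀ v ∈ V, ∃ q, p q = v := by
    intro v hv
    rw [← hVeq, Finset.mem_union, Finset.mem_image] at hv
    rcases hv with h | ⟨x, hx, rfl⟩
    · obtain ⟨i, hi⟩ := hιsurj v h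
      exact ⟨(i, true), by simp [p, hi]⟩
    · obtain ⟨i, hi⟩ := hιsurj x hx
      exact ⟨(i, false), by simp [p, hi]⟩
  have hpinj : Function.Injective p := by
    rintro ⟨i, s⟩ ⟨j, t⟩ h
    cases s <;> cases t <;> simp only [p] at h
    · have h' := hyinj _ (hRM _ (hιR i)) _ (hRM _ (hιR j)) (by simpa using h)
      rw [hιinj h']
    · exfalso
      have h' : y (ι i) = ι j := by simpa using h
      exact hyM _ (hRM _ (hιR i)) (h' ▸ hRM _ (hιR j))
    · exfalso
      have h' : ι i = y (ι j) := by simpa using h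
      exact hyM _ (hRM _ (hιR j)) (h' ▸ hRM _ (hιR i))
    · have h' : ι i = ι j := by simpa using h
      rw [hιinj h']
  have hVF : ∀ v ∈ V, ∀ f ∈ F, ({v, f} : Finset (Fin n)) ∈ Δ := by
    intro v hv f hf
    refine h1.2 _ ((hVmem v).1 hv).2 _ ?_
    intro c hc
    rw [Finset.mem_insert, Finset.mem_singleton] at hc
    rcases hc with rfl | rfl
    · exact Finset.mem_insert_self _ _
    · exact Finset.mem_insert_of_mem hf
  have hpp : ∀ q q' : Fin (d - F.card) × Bool, (q.1 = q'.1 → q.2 = q'.2) →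
      ({p q, p q'} : Finset (Fin n)) ∈ Δ := by
    rintro ⟨i, s⟩ ⟨j, t⟩ h
    by_cases hij : i = j
    · subst hij
      have hst : s = t := h rfl
      subst hst
      have := h1.2 _ ((hVmem _).1 (hpV (i, s))).2 {p (i, s)} (by simp)
      simpa using this
    · have hne : ι i ≠ ι j := fun h' => hij (hιinj h')
      cases s <;> cases t <;> simp only [p]
      · simpa using hyy _ (hιR i) _ (hιR j) hne
      · have := hadj _ (hRM _ (hιR i)) _ (hRM _ (hιR j)) hne.symm
        rw [Finset.pair_comm] at this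
        simpa using this
      · simpa using hadj _ (hRM _ (hιR j)) _ (hRM _ (hιR i)) hne
      · simpa using hpairM _ (hRM _ (hιR i)) _ (hRM _ (hιR j))
  refine ⟨p, hpinj, ?_⟩
  intro H
  constructor
  · intro hH
    have hH' : H ∈ Δ ∧ Disjoint H F ∧ H ∪ F ∈ Δ := by
      simpa [link] using hH
    refine ⟨Finset.univ.filter (fun q => p q ∈ H), ?_, ?_⟩
    · rintro i ⟨ht, hf⟩
      rw [Finset.mem_filter] at ht hf
      have hx := hRM _ (hιR i)
      apply (hy (ι i) hx).1
      refine h1.2 H hH'.1 _ ?_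
      intro c hc
      rw [Finset.mem_insert, Finset.mem_singleton] at hc
      rcases hc with rfl | rfl
      · simpa [p] using ht.2
      · simpa [p] using hf.2
    · ext a
      rw [Finset.mem_image]
      constructor
      · intro ha
        have haV : a ∈ V := by
          rw [hVmem]
          refine ⟨fun h => (Finset.disjoint_left.1 hH'.2.1) ha h, h1.2 _ hH'.2.2 _ ?_⟩
          exact Finset.insert_subset (Finset.mem_union_left _ ha) Finset.subset_union_right
        obtain ⟨q, rfl⟩ := hpsurj a haV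
        exact ⟨q, by simp [ha], rfl⟩
      · rintro ⟨q, hq, rfl⟩
        exact (Finset.mem_filter.1 hq).2
  · rintro ⟨G, hG, rfl⟩
    have hcomp : ∀ q ∈ G, ∀ q' ∈ G, q.1 = q'.1 → q.2 = q'.2 := by
      rintro ⟨i, s⟩ hq ⟨j, t⟩ hq' hij
      simp only at hij ⊢
      subst hij
      cases s <;> cases t
      · rfl
      · exact absurd ⟨hq', hq⟩ (hG i)
      · exact absurd ⟨hq, hq'⟩ (hG i)
      · rfl
    have hun : G.image p ∪ F ∈ Δ := by
      apply h2
      intro a ha b hb
      rw [Finset.mem_union] at ha hb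
      rcases ha with ha | ha
      · rw [Finset.mem_image] at ha
        obtain ⟨q, hq, rfl⟩ := ha
        rcases hb with hb | hb
        · rw [Finset.mem_image] at hb
          obtain ⟨q', hq', rfl⟩ := hb
          exact hpp q q' (hcomp q hq q' hq')
        · exact hVF _ (hpV q) b hb
      · rcases hb with hb | hb
        · rw [Finset.mem_image] at hb
          obtain ⟨q', hq', rfl⟩ := hb
          rw [Finset.pair_comm]
          exact hVF _ (hpV q') a ha
        · exact hpairM a (hFM ha) b (hFM hb)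
    simp only [link, Finset.mem_filter]
    refine ⟨h1.2 _ hun _ Finset.subset_union_left, ?_, hun⟩
    rw [Finset.disjoint_left]
    intro a ha haF
    rw [Finset.mem_image] at ha
    obtain ⟨q, _, rfl⟩ := ha
    exact ((hVmem _).1 (hpV q)).1 haF

end Pool.Agent.FSG
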